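import Pool.Agent.X240.BM.Core

/-!
# The alternating extension of a function of the strictly decreasing weights
-/

set_option autoImplicit false

namespace Pool.Agent.X240.BM

open Finset

/-- The permutation which puts `x` in decreasing order. -/
noncomputable def dsort {n : ℕ} (x : Fin n → ℤ) : Equiv.Perm (Fin n) := Tuple.sort fun j => -x j

/-- The alternating extension of `z`: if the vectors `ξ σ` have no repeated coordinates, then they are
put in decreasing order, the function `z` is evaluated at the result, and the value is multiplied by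
the signs of the permutations; otherwise the value is `0`. -/
noncomputable def altExt {J : Type} [Fintype J] {n : ℕ} {A : Type} [AddCommGroup A]
    (z : Wt J n → A) (ξ : Wt J n) : A :=
  open Classical in
  if ∀ σ, Function.Injective (ξ σ) then
    (∏ σ, ((Equiv.Perm.sign (dsort (ξ σ)) : ℤˣ) : ℤ)) • z (fun σ => ξ σ ∘ dsort (ξ σ))
  else 0

theorem strictAnti_dsort {n : ℕ} (x : Fin n → ℤ) (hx : Function.Injective x) :
    StrictAnti (x ∘ dsort x) := by
  have hmono : Monotone ((fun j => - x j) ∘ dsort x) := Tuple.monotone_sort _
  have hanti : Antitone (x ∘ dsort x) := by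
    intro a b hab
    have := hmono hab
    simp only [Function.comp] at this ⊢
    omega
  exact hanti.strictAnti_of_injective (hx.comp (dsort x).injective)

theorem eq_of_strictAnti {n : ℕ} (x : Fin n → ℤ) (p q : Equiv.Perm (Fin n))
    (hp : StrictAnti (x ∘ p)) (hq : StrictAnti (x ∘ q)) : p = q := by
  have h1 : StrictMono ((fun j => - x j) ∘ p) := by
    intro a b hab
    have := hp hab
    simp only [Function.comp] at this ⊢
    omega
  have h2 : StrictMono ((fun j => - x j) ∘ q) := by
    intro a b hab
    have := hq hab
    simp only [Function.comp] at this ⊢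
    omega
  have h3 := Tuple.unique_monotone h1.monotone h2.monotone
  ext j
  have h4 := congrFun h3 j
  have hinj : Function.Injective (fun j => - x j) := by
    intro a b hab
    obtain ⟨a', rfl⟩ := p.surjective a
    obtain ⟨b', rfl⟩ := p.surjective b
    rw [h1.injective hab]
  have := hinj h4
  rw [this]

theorem dsort_eq {n : ℕ} (x : Fin n → ℤ) (p : Equiv.Perm (Fin n)) (hp : StrictAnti (x ∘ p)) :
    dsort x = p := by
  refine eq_of_strictAnti x _ p (strictAnti_dsort x ?_) hp
  intro a b hab
  obtain ⟨a', rfl⟩ := p.surjective a
  obtain ⟨b', rfl⟩ := p.surjective b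
  have : (x ∘ p) a' = (x ∘ p) b' := hab
  rw [hp.injective this]

section

variable {J : Type} [Fintype J] {n : ℕ} {A : Type} [AddCommGroup A]

theorem altExt_strict (z : Wt J n → A) (ξ : Wt J n) (hξ : ∀ σ, StrictAnti (ξ σ)) :
    altExt z ξ = z ξ := by
  have h1 : ∀ σ, dsort (ξ σ) = 1 := fun σ => dsort_eq _ _ (hξ σ)
  unfold altExt
  rw [if_pos fun σ => (hξ σ).injective]
  simp only [h1, Equiv.Perm.sign_one, Units.val_one, Finset.prod_const_one, one_smul]
  rfl

theorem altExt_alt [DecidableEq J] (z : Wt J n → A) : Alt (altExt z) := by
  classical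
  constructor
  · intro ξ σ w
    by_cases hinj : ∀ τ, Function.Injective (ξ τ)
    · have hinj' : ∀ τ, Function.Injective (Function.update ξ σ (ξ σ ∘ w) τ) := by
        intro τ
        by_cases h : τ = σ
        · subst h
          rw [Function.update_self]
          exact (hinj τ).comp w.injective
        · rw [Function.update_of_ne h]
          exact hinj τ
      have hs : dsort (ξ σ ∘ w) = w⁻¹ * dsort (ξ σ) := by
        apply dsort_eq
        have : (ξ σ ∘ w) ∘ (w⁻¹ * dsort (ξ σ)) = ξ σ ∘ dsort (ξ σ) := by
          funext j
          simp [Function.comp]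
        rw [this]
        exact strictAnti_dsort _ (hinj σ)
      unfold altExt
      rw [if_pos hinj, if_pos hinj']
      have e1 : (fun τ => Function.update ξ σ (ξ σ ∘ w) τ ∘
          dsort (Function.update ξ σ (ξ σ ∘ w) τ)) = fun τ => ξ τ ∘ dsort (ξ τ) := by
        funext τ
        by_cases h : τ = σ
        · subst h
          rw [Function.update_self, hs]
          funext j
          simp [Function.comp]
        · rw [Function.update_of_ne h]
      rw [e1, smul_smul]
      congr 1
      rw [← Finset.mul_prod_erase univ _ (Finset.mem_univ σ),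
        ← Finset.mul_prod_erase univ (fun τ => ((Equiv.Perm.sign (dsort (ξ τ)) : ℤˣ) : ℤ))
          (Finset.mem_univ σ), Function.update_self, hs, ← mul_assoc]
      congr 1
      · rw [map_mul, Equiv.Perm.sign_inv, Units.val_mul]
      · refine Finset.prod_congr rfl fun τ hτ => ?_
        rw [Function.update_of_ne (Finset.ne_of_mem_erase hτ)]
    · have hinj' : ¬ ∀ τ, Function.Injective (Function.update ξ σ (ξ σ ∘ w) τ) := by
        intro h'
        apply hinj
        intro τ
        by_cases h : τ = σ
        · subst h
          have := h' τ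
          rw [Function.update_self] at this
          have h2 := this.comp (w⁻¹).injective
          have h3 : (ξ τ ∘ w) ∘ ⇑(w⁻¹) = ξ τ := by
            funext j
            simp [Function.comp]
          rwa [h3] at h2
        · have := h' τ
          rwa [Function.update_of_ne h] at this
      unfold altExt
      rw [if_neg hinj, if_neg hinj', smul_zero]
  · intro ξ σ h
    unfold altExt
    rw [if_neg fun h' => h (h' σ)]

/-- An alternating function is determined by its values at the strictly decreasing weights. -/
theorem alt_ext [DecidableEq J] (Z Z' : Wt J n → A) (hZ : Alt Z) (hZ' : Alt Z')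
    (h : ∀ ξ : Wt J n, (∀ σ, StrictAnti (ξ σ)) → Z ξ = Z' ξ) : Z = Z' := by
  funext ξ
  by_cases hinj : ∀ τ, Function.Injective (ξ τ)
  · have hD : Alt (fun ξ => Z ξ - Z' ξ) := by
      constructor
      · intro ξ σ w
        rw [hZ.perm, hZ'.perm, smul_sub]
      · intro ξ σ h
        rw [hZ.rep ξ σ h, hZ'.rep ξ σ h, sub_zero]
    obtain ⟨η, h1, -, h2⟩ := exists_sorted (fun _ => 0) _ hD ξ hinj
    exact sub_eq_zero.mp (h2 (sub_eq_zero.mpr (h η h1)))
  · push Not at hinj
    obtain ⟨σ, hσ⟩ := hinj
    rw [hZ.rep ξ σ hσ, hZ'.rep ξ σ hσ]

end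

end Pool.Agent.X240.BM
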