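import Mathlib

/-!
# Alternating solutions of the difference equations `e_i(T_σ ^ m_σ) = e_i(T_(nx σ))`

`J` is the set of embeddings, a weight is a family of vectors in `ℤ ^ (N + 1)` indexed by `J`. The main
result `zero_of_restricted`: a function of the weights with values in an abelian group which is
alternating and satisfies the equations is zero if it is zero at the restricted weights.
-/

set_option autoImplicit false

namespace Pool.Agent.X240.BM

open Finset

/-- Families of integral vectors. -/
abbrev Wt (J : Type) (n : ℕ) := J → Fin n → ℤ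

/-- Add `c` to the coordinates in `S` of the vector at `σ`. -/
def bump {J : Type} [DecidableEq J] {n : ℕ} (ξ : Wt J n) (σ : J) (c : ℤ) (S : Finset (Fin n)) :
    Wt J n :=
  fun τ j => ξ τ j + if τ = σ ∧ j ∈ S then c else 0

/-- Alternating functions of each of the vectors. -/
structure Alt {J : Type} [DecidableEq J] {n : ℕ} {A : Type} [AddCommGroup A] (Z : Wt J n → A) :
    Prop where
  perm : ∀ (ξ : Wt J n) (σ : J) (w : Equiv.Perm (Fin n)),
    Z (Function.update ξ σ (ξ σ ∘ w)) = ((Equiv.Perm.sign w : ℤˣ) : ℤ) • Z ξ
  rep : ∀ (ξ : Wt J n) (σ : J), ¬ Function.Injective (ξ σ) → Z ξ = 0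

/-- The difference equations. -/
def DiffEq {J : Type} [DecidableEq J] {n : ℕ} {A : Type} [AddCommGroup A] (nx : J → J) (m : J → ℤ)
    (Z : Wt J n → A) : Prop :=
  ∀ (ξ : Wt J n) (σ : J) (i : ℕ), 1 ≤ i → i ≤ n →
    ∑ S ∈ powersetCard i univ, Z (bump ξ σ (m σ) S) =
      ∑ S ∈ powersetCard i univ, Z (bump ξ (nx σ) 1 S)

/-- Restricted weights. -/
structure Restricted {J : Type} {N : ℕ} (m : J → ℤ) (σ₀ : J) (Q : ℤ) (ξ : Wt J (N + 1)) :
    Prop where
  pos : ∀ (σ : J) (i : Fin N), 1 ≤ ξ σ i.castSucc - ξ σ i.succ
  le : ∀ (σ : J) (i : Fin N), ξ σ i.castSucc - ξ σ i.succ ≤ m σ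
  zero : ∀ σ : J, σ ≠ σ₀ → ξ σ (Fin.last N) = 0
  nonneg : 0 ≤ ξ σ₀ (Fin.last N)
  lt : ξ σ₀ (Fin.last N) < Q

/-- The relations between the shifts. -/
def Det {J : Type} [DecidableEq J] (nx : J → J) (m : J → ℤ) (σ₀ : J) (Q : ℤ) : Prop :=
  ∀ c : J → ℤ, ∃ t : ℤ, 0 ≤ t ∧ t < Q ∧ c - Pi.single σ₀ t ∈
    AddSubgroup.closure (Set.range fun σ => (Pi.single σ (m σ) - Pi.single (nx σ) 1 : J → ℤ))

/-! ### The height of a vector -/

/-- Sum of all the distances of the coordinates. -/
def hgt {n : ℕ} (x : Fin n → ℤ) : ℤ := ∑ j, ∑ k, |x j - x k|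

/-- indicator. -/
def ind {n : ℕ} (S : Finset (Fin n)) (j : Fin n) : ℤ := if j ∈ S then 1 else 0

theorem hgt_nonneg {n : ℕ} (x : Fin n → ℤ) : 0 ≤ hgt x :=
  Finset.sum_nonneg fun _ _ => Finset.sum_nonneg fun _ _ => abs_nonneg _

theorem hgt_perm {n : ℕ} (x : Fin n → ℤ) (w : Equiv.Perm (Fin n)) : hgt (x ∘ w) = hgt x := by
  unfold hgt
  rw [← Equiv.sum_comp w (fun j => ∑ k, |x j - x k|)]
  refine Finset.sum_congr rfl fun j _ => ?_
  rw [← Equiv.sum_comp w (fun k => |x (w j) - x k|)]
  rfl

theorem hgt_ind {n : ℕ} (S : Finset (Fin n)) : hgt (ind S) = 2 * (S.card * (n - S.card)) := by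
  have h1 : ∀ j k : Fin n, |ind S j - ind S k| = ind S j + ind S k - 2 * (ind S j * ind S k) := by
    intro j k
    unfold ind
    split_ifs <;> simp
  have h2 : ∑ j, ind S j = S.card := by
    unfold ind
    simp
  unfold hgt
  simp only [h1]
  simp only [Finset.sum_sub_distrib, Finset.sum_add_distrib, Finset.sum_const, Finset.card_univ,
    Fintype.card_fin, ← Finset.mul_sum, ← Finset.sum_mul, nsmul_eq_mul]
  rw [h2]
  ring

theorem hgt_add_le {n : ℕ} (x : Fin n → ℤ) (S : Finset (Fin n)) (c : ℤ) (hc : 0 ≤ c) :
    hgt (fun j => x j + c * ind S j) ≤ hgt x + c * (2 * (S.card * (n - S.card))) := by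
  rw [← hgt_ind]
  unfold hgt
  rw [Finset.mul_sum, ← Finset.sum_add_distrib]
  refine Finset.sum_le_sum fun j _ => ?_
  rw [Finset.mul_sum, ← Finset.sum_add_distrib]
  refine Finset.sum_le_sum fun k _ => ?_
  have : x j + c * ind S j - (x k + c * ind S k) = (x j - x k) + c * (ind S j - ind S k) := by ring
  rw [this]
  refine (abs_add_le _ _).trans ?_
  rw [abs_mul, abs_of_nonneg hc]

/-- The first `i` indices. -/
def seg (n i : ℕ) : Finset (Fin n) := univ.filter fun j => j.val < i

theorem card_seg {n i : ℕ} (h : i ≤ n) : (seg n i).card = i := by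
  unfold seg
  rw [Fin.card_filter_val_lt]
  omega

theorem hgt_seg {n : ℕ} (x : Fin n → ℤ) (hx : StrictAnti x) (i : ℕ) (c : ℤ) (hc : 0 ≤ c) :
    hgt (fun j => x j + c * ind (seg n i) j) =
      hgt x + c * (2 * ((seg n i).card * (n - (seg n i).card))) := by
  rw [← hgt_ind]
  unfold hgt
  rw [Finset.mul_sum, ← Finset.sum_add_distrib]
  refine Finset.sum_congr rfl fun j _ => ?_
  rw [Finset.mul_sum, ← Finset.sum_add_distrib]
  refine Finset.sum_congr rfl fun k _ => ?_
  have h0 : x j + c * ind (seg n i) j - (x k + c * ind (seg n i) k) =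
    (x j - x k) + c * (ind (seg n i) j - ind (seg n i) k) := by ring
  rw [h0]
  rcases lt_trichotomy j k with h | h | h
  · have h1 : 0 ≤ x j - x k := by have := hx h; omega
    have h2 : 0 ≤ ind (seg n i) j - ind (seg n i) k := by
      unfold ind seg
      simp only [Finset.mem_filter, Finset.mem_univ, true_and]
      have : j.val < k.val := h
      split_ifs <;> omega
    rw [abs_of_nonneg h1, abs_of_nonneg h2, abs_of_nonneg (by positivity)]
  · subst h
    simp
  · have h1 : x j - x k ≤ 0 := by have := hx h; omega
    have h2 : ind (seg n i) j - ind (seg n i) k ≤ 0 := by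
      unfold ind seg
      simp only [Finset.mem_filter, Finset.mem_univ, true_and]
      have : k.val < j.val := h
      split_ifs <;> omega
    have h3 : c * (ind (seg n i) j - ind (seg n i) k) ≤ 0 := mul_nonpos_of_nonneg_of_nonpos hc h2
    rw [abs_of_nonpos h1, abs_of_nonpos h2, abs_of_nonpos (by omega)]
    ring

theorem exists_inv {n : ℕ} (S : Finset (Fin n)) (h : S ≠ seg n S.card) :
    ∃ j k : Fin n, j < k ∧ j ∉ S ∧ k ∈ S := by
  by_contra hcon
  push Not at hcon
  apply h
  have hlow : ∀ k ∈ S, ∀ j, j < k → j ∈ S := by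
    intro k hk j hj
    by_contra hjS
    exact hcon j k hj hjS hk
  have hsub : S ⊆ seg n S.card := by
    intro k hk
    unfold seg
    rw [Finset.mem_filter]
    refine ⟨Finset.mem_univ _, ?_⟩
    have h1 : (Finset.Iic k) ⊆ S := by
      intro j hj
      rw [Finset.mem_Iic] at hj
      rcases hj.lt_or_eq with hj | hj
      · exact hlow k hk j hj
      · rw [hj]; exact hk
    have h2 := Finset.card_le_card h1
    rw [Fin.card_Iic] at h2
    omega
  refine Finset.eq_of_subset_of_card_le hsub ?_
  rw [card_seg]
  exact (Finset.card_le_univ S).trans (by simp)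

theorem hgt_add_lt {n : ℕ} (x : Fin n → ℤ) (hx : StrictAnti x) (S : Finset (Fin n))
    (hS : S ≠ seg n S.card) (c : ℤ) (hc : 0 < c) :
    hgt (fun j => x j + c * ind S j) < hgt x + c * (2 * (S.card * (n - S.card))) := by
  obtain ⟨j₀, k₀, hjk, hj, hk⟩ := exists_inv S hS
  rw [← hgt_ind]
  unfold hgt
  rw [Finset.mul_sum, ← Finset.sum_add_distrib]
  have key : ∀ j k : Fin n, |x j + c * ind S j - (x k + c * ind S k)| ≤
      |x j - x k| + c * |ind S j - ind S k| := by
    intro j k
    have : x j + c * ind S j - (x k + c * ind S k) = (x j - x k) + c * (ind S j - ind S k) := by ring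
    rw [this]
    refine (abs_add_le _ _).trans ?_
    rw [abs_mul, abs_of_nonneg hc.le]
  refine Finset.sum_lt_sum (fun j _ => ?_) ⟨j₀, Finset.mem_univ _, ?_⟩
  · rw [Finset.mul_sum, ← Finset.sum_add_distrib]
    exact Finset.sum_le_sum fun k _ => key j k
  · rw [Finset.mul_sum, ← Finset.sum_add_distrib]
    refine Finset.sum_lt_sum (fun k _ => key j₀ k) ⟨k₀, Finset.mem_univ _, ?_⟩
    have h1 : 0 < x j₀ - x k₀ := by have := hx hjk; omega
    have e1 : ind S j₀ = 0 := by unfold ind; rw [if_neg hj]
    have e2 : ind S k₀ = 1 := by unfold ind; rw [if_pos hk]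
    show |x j₀ + c * ind S j₀ - (x k₀ + c * ind S k₀)| <
      |x j₀ - x k₀| + c * |ind S j₀ - ind S k₀|
    rw [e1, e2, mul_zero, mul_one, zero_sub, abs_neg, abs_one, mul_one, abs_of_pos h1, abs_lt]
    constructor <;> omega

/-! ### Shifts -/

section shift

variable {J : Type} [DecidableEq J] {n : ℕ} {A : Type} [AddCommGroup A]

/-- Add `c σ` to all the coordinates of the vector at `σ`. -/
def shift (ξ : Wt J n) (c : J → ℤ) : Wt J n := fun τ j => ξ τ j + c τ

theorem bump_univ (ξ : Wt J n) (σ : J) (a : ℤ) : bump ξ σ a univ = shift ξ (Pi.single σ a) := by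
  funext τ j
  unfold bump shift
  by_cases h : τ = σ
  · subst h; simp
  · simp [h]

theorem shift_shift (ξ : Wt J n) (c d : J → ℤ) : shift (shift ξ c) d = shift ξ (c + d) := by
  funext τ j
  simp [shift, add_assoc]

/-- The periods. -/
def periods (Z : Wt J n → A) : AddSubgroup (J → ℤ) where
  carrier := {c | ∀ ξ, Z (shift ξ c) = Z ξ}
  zero_mem' := by
    intro ξ
    congr 1
    funext τ j
    simp [shift]
  add_mem' := by
    intro a b ha hb ξ
    rw [← shift_shift, hb, ha]
  neg_mem' := by
    intro a ha ξ
    have := ha (shift ξ (-a))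
    rw [shift_shift, neg_add_cancel] at this
    rw [← this]
    congr 1
    funext τ j
    simp [shift]

theorem single_mem (nx : J → J) (m : J → ℤ) (Z : Wt J n → A) (hn : 1 ≤ n) (hZ : DiffEq nx m Z) (σ : J) :
    (Pi.single σ (m σ) - Pi.single (nx σ) 1 : J → ℤ) ∈ periods Z := by
  intro ξ
  have h := hZ (shift ξ (-Pi.single (nx σ) 1)) σ n hn le_rfl
  have hp : powersetCard n (univ : Finset (Fin n)) = {univ} := by
    have h1 := Finset.powersetCard_self (univ : Finset (Fin n))
    rwa [Finset.card_univ, Fintype.card_fin] at h1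
  rw [hp, Finset.sum_singleton, Finset.sum_singleton, bump_univ, bump_univ, shift_shift, shift_shift,
    neg_add_cancel] at h
  have e1 : (-Pi.single (nx σ) 1 + Pi.single σ (m σ) : J → ℤ) =
    Pi.single σ (m σ) - Pi.single (nx σ) 1 := by abel
  rw [e1] at h
  rw [h]
  congr 1
  funext τ j
  simp [shift]

end shift

/-! ### The main lemma -/

section main

variable {J : Type} [Fintype J] [DecidableEq J] {N : ℕ} {A : Type} [AddCommGroup A]

/-- Total height. -/
def tot (w : J → ℤ) (ξ : Wt J N) : ℤ := ∑ σ, w σ * hgt (ξ σ)

theorem bump_same (ξ : Wt J N) (σ : J) (c : ℤ) (S : Finset (Fin N)) :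
    bump ξ σ c S σ = fun j => ξ σ j + c * ind S j := by
  funext j
  unfold bump ind
  by_cases h : j ∈ S <;> simp [h]

theorem bump_ne (ξ : Wt J N) {σ τ : J} (h : τ ≠ σ) (c : ℤ) (S : Finset (Fin N)) :
    bump ξ σ c S τ = ξ τ := by
  funext j
  unfold bump
  simp [h]

theorem tot_bump (w : J → ℤ) (ξ : Wt J N) (σ : J) (c : ℤ) (S : Finset (Fin N)) :
    tot w (bump ξ σ c S) = tot w ξ + w σ * (hgt (fun j => ξ σ j + c * ind S j) - hgt (ξ σ)) := by
  unfold tot
  rw [← Finset.add_sum_erase univ _ (Finset.mem_univ σ),
    ← Finset.add_sum_erase univ (fun τ => w τ * hgt (ξ τ)) (Finset.mem_univ σ), bump_same]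
  have : ∑ τ ∈ univ.erase σ, w τ * hgt (bump ξ σ c S τ) = ∑ τ ∈ univ.erase σ, w τ * hgt (ξ τ) :=
    Finset.sum_congr rfl fun τ hτ => by rw [bump_ne ξ (Finset.ne_of_mem_erase hτ)]
  rw [this]
  ring

theorem tot_nonneg (w : J → ℤ) (hw : ∀ σ, 0 < w σ) (ξ : Wt J N) : 0 ≤ tot w ξ :=
  Finset.sum_nonneg fun σ _ => mul_nonneg (hw σ).le (hgt_nonneg _)

/-- Sorting: a weight all of whose vectors are injective can be replaced by one with decreasing
vectors. -/
theorem exists_sorted (w : J → ℤ) (Z : Wt J N → A) (hZ : Alt Z) (ξ : Wt J N)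
    (hξ : ∀ σ, Function.Injective (ξ σ)) :
    ∃ η : Wt J N, (∀ σ, StrictAnti (η σ)) ∧ tot w η = tot w ξ ∧ (Z η = 0 → Z ξ = 0) := by
  classical
  have key : ∀ s : Finset J, ∃ η : Wt J N, (∀ σ, Function.Injective (η σ)) ∧
      (∀ σ ∈ s, StrictAnti (η σ)) ∧ tot w η = tot w ξ ∧ (Z η = 0 → Z ξ = 0) := by
    intro s
    induction s using Finset.induction_on with
    | empty => exact ⟨ξ, hξ, by simp, rfl, id⟩
    | insert σ s hσ ih =>
      obtain ⟨η, h1, h2, h3, h4⟩ := ih
      let p : Equiv.Perm (Fin N) := Tuple.sort (fun j => - η σ j)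
      have hmono : Monotone ((fun j => - η σ j) ∘ p) := Tuple.monotone_sort _
      have hsa : StrictAnti (η σ ∘ p) := by
        have hanti : Antitone (η σ ∘ p) := by
          intro a b hab
          have := hmono hab
          simp only [Function.comp] at this ⊢
          omega
        exact hanti.strictAnti_of_injective ((h1 σ).comp p.injective)
      refine ⟨Function.update η σ (η σ ∘ p), ?_, ?_, ?_, ?_⟩
      · intro τ
        by_cases h : τ = σ
        · subst h
          rw [Function.update_self]
          exact (h1 τ).comp p.injective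
        · rw [Function.update_of_ne h]
          exact h1 τ
      · intro τ hτ
        by_cases h : τ = σ
        · subst h
          rw [Function.update_self]
          exact hsa
        · rw [Function.update_of_ne h]
          exact h2 τ ((Finset.mem_insert.mp hτ).resolve_left h)
      · rw [← h3]
        unfold tot
        refine Finset.sum_congr rfl fun τ _ => ?_
        by_cases h : τ = σ
        · subst h
          rw [Function.update_self, hgt_perm]
        · rw [Function.update_of_ne h]
      · intro h0
        apply h4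
        rw [hZ.perm] at h0
        rcases Int.units_eq_one_or (Equiv.Perm.sign p) with hs | hs
        · rw [hs] at h0
          simpa using h0
        · rw [hs] at h0
          simpa using h0
  obtain ⟨η, -, h2, h3, h4⟩ := key univ
  exact ⟨η, fun σ => h2 σ (Finset.mem_univ _), h3, h4⟩

end main

theorem zero_of_restricted {J : Type} [Fintype J] [DecidableEq J] {N : ℕ} {A : Type}
    [AddCommGroup A] (nx : J → J) (m w : J → ℤ) (σ₀ : J) (Q : ℤ) (hm : ∀ σ, 1 ≤ m σ)
    (hw : ∀ σ, 0 < w σ) (hmw : ∀ σ, w (nx σ) < m σ * w σ) (hdet : Det nx m σ₀ Q)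
    (Z : Wt J (N + 1) → A) (hZ : Alt Z) (hD : DiffEq nx m Z)
    (h0 : ∀ ξ, Restricted m σ₀ Q ξ → Z ξ = 0) : ∀ ξ, Z ξ = 0 := by
  classical
  have main : ∀ k : ℕ, ∀ ξ : Wt J (N + 1), tot w ξ < k → Z ξ = 0 := by
    intro k
    induction k with
    | zero =>
      intro ξ hξ
      have := tot_nonneg w hw ξ
      simp at hξ
      omega
    | succ k ih =>
      intro ξ hξ
      by_cases hinj : ∀ σ, Function.Injective (ξ σ)
      · obtain ⟨η, hη, ht, hz⟩ := exists_sorted w Z hZ ξ hinj
        apply hz
        rw [← ht] at hξ
        clear hz ht hinj ξ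
        by_cases hgap : ∃ (σ : J) (i : Fin N), m σ < η σ i.castSucc - η σ i.succ
        · obtain ⟨σ, i, hgi⟩ := hgap
          -- the smaller weight
          set S₀ : Finset (Fin (N + 1)) := seg (N + 1) (i.val + 1) with hS₀
          have hc₀ : S₀.card = i.val + 1 := card_seg (by omega)
          set θ : Wt J (N + 1) := bump η σ (-(m σ)) S₀ with hθ
          have hθσ : θ σ = fun j => η σ j + -(m σ) * ind S₀ j := bump_same _ _ _ _
          have hθa : StrictAnti (θ σ) := by
            rw [hθσ, Fin.strictAnti_iff_succ_lt]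
            intro j
            have hj := (Fin.strictAnti_iff_succ_lt.mp (hη σ)) j
            show η σ j.succ + -(m σ) * ind S₀ j.succ < η σ j.castSucc + -(m σ) * ind S₀ j.castSucc
            by_cases hji : j = i
            · subst hji
              have e1 : ind S₀ j.succ = 0 := by
                unfold ind; rw [if_neg]; rw [hS₀]; unfold seg; simp
              have e2 : ind S₀ j.castSucc = 1 := by
                unfold ind; rw [if_pos]; rw [hS₀]; unfold seg; simp
              rw [e1, e2]
              omega
            · have e1 : ind S₀ j.succ = ind S₀ j.castSucc := by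
                unfold ind
                rw [hS₀]
                unfold seg
                have : j.val ≠ i.val := fun h => hji (Fin.ext h)
                simp only [Finset.mem_filter, Finset.mem_univ, true_and, Fin.val_succ,
                  Fin.val_castSucc]
                split_ifs <;> first | rfl | omega
              rw [e1]
              omega
          have hback : bump θ σ (m σ) S₀ = η := by
            funext τ j
            rw [hθ]
            unfold bump
            split_ifs <;> ring
          have hθη : ∀ j, θ σ j + m σ * ind S₀ j = η σ j := by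
            intro j
            rw [hθσ]
            ring
          set D : ℤ := 2 * (((i.val + 1 : ℕ) : ℤ) * ((N + 1 : ℕ) - ((i.val + 1 : ℕ) : ℤ))) with hDdef
          have hDpos : 0 < D := by
            have hi := i.isLt
            have : (0 : ℤ) < ((N + 1 : ℕ) : ℤ) - ((i.val + 1 : ℕ) : ℤ) := by omega
            have h2 : (0 : ℤ) < ((i.val + 1 : ℕ) : ℤ) := by omega
            rw [hDdef]
            positivity
          have hhη : hgt (η σ) = hgt (θ σ) + m σ * D := by
            have := hgt_seg (θ σ) hθa (i.val + 1) (m σ) (by have := hm σ; omega)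
            rw [← hS₀, hc₀] at this
            rw [hDdef, ← this]
            congr 1
            funext j
            exact (hθη j).symm
          have htη : tot w η = tot w θ + w σ * (m σ * D) := by
            conv_lhs => rw [← hback]
            rw [tot_bump]
            have : (fun j => θ σ j + m σ * ind S₀ j) = η σ := by funext j; exact hθη j
            rw [this, hhη]
            ring
          have heq := hD θ σ (i.val + 1) (by omega) (by have := i.isLt; omega)
          have hR : ∑ S ∈ powersetCard (i.val + 1) univ, Z (bump θ (nx σ) 1 S) = 0 := by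
            refine Finset.sum_eq_zero fun S hS => ih _ ?_
            have hcS := (Finset.mem_powersetCard.mp hS).2
            have h1 := hgt_add_le (θ (nx σ)) S 1 (by norm_num)
            rw [hcS, ← hDdef, one_mul] at h1
            have h2 : tot w (bump θ (nx σ) 1 S) ≤ tot w θ + w (nx σ) * D := by
              rw [tot_bump]
              have := mul_le_mul_of_nonneg_left (sub_le_iff_le_add'.mpr h1) (hw (nx σ)).le
              omega
            have h3 : w (nx σ) * D < w σ * (m σ * D) := by
              have := mul_lt_mul_of_pos_right (hmw σ) hDpos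
              calc w (nx σ) * D < m σ * w σ * D := this
                _ = w σ * (m σ * D) := by ring
            push_cast at hξ
            omega
          have hL : ∑ S ∈ (powersetCard (i.val + 1) univ).erase S₀, Z (bump θ σ (m σ) S) = 0 := by
            refine Finset.sum_eq_zero fun S hS => ih _ ?_
            have hSne := Finset.ne_of_mem_erase hS
            have hcS := (Finset.mem_powersetCard.mp (Finset.mem_of_mem_erase hS)).2
            have h1 := hgt_add_lt (θ σ) hθa S (by rw [hcS, ← hS₀]; exact hSne) (m σ)
              (by have := hm σ; omega)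
            rw [hcS, ← hDdef] at h1
            have h2 : tot w (bump θ σ (m σ) S) < tot w η := by
              rw [tot_bump, htη]
              have := mul_lt_mul_of_pos_left (sub_lt_iff_lt_add'.mpr h1) (hw σ)
              omega
            push_cast at hξ
            omega
          have hmem : S₀ ∈ powersetCard (i.val + 1) (univ : Finset (Fin (N + 1))) := by
            rw [Finset.mem_powersetCard]
            exact ⟨Finset.subset_univ _, hc₀⟩
          rw [hR, ← Finset.add_sum_erase _ _ hmem, hL, add_zero, hback] at heq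
          exact heq
        · push Not at hgap
          obtain ⟨t, ht0, htQ, hmem⟩ := hdet (fun σ => η σ (Fin.last N))
          have hle : AddSubgroup.closure (Set.range fun σ =>
              (Pi.single σ (m σ) - Pi.single (nx σ) 1 : J → ℤ)) ≤ periods Z := by
            rw [AddSubgroup.closure_le]
            rintro _ ⟨σ, rfl⟩
            exact single_mem nx m Z (by omega) hD σ
          have hper := (periods Z).neg_mem (hle hmem)
          rw [← hper η]
          apply h0
          have hval : ∀ σ, (shift η (-((fun σ => η σ (Fin.last N)) - Pi.single σ₀ t))) σ (Fin.last N)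
              = (Pi.single σ₀ t : J → ℤ) σ := by
            intro σ
            simp [shift]
          refine ⟨?_, ?_, ?_, ?_, ?_⟩
          · intro σ i
            have := (Fin.strictAnti_iff_succ_lt.mp (hη σ)) i
            show 1 ≤ (η σ i.castSucc + _) - (η σ i.succ + _)
            omega
          · intro σ i
            have := hgap σ i
            show (η σ i.castSucc + _) - (η σ i.succ + _) ≤ m σ
            omega
          · intro σ hσ
            rw [hval, Pi.single_eq_of_ne hσ]
          · rw [hval, Pi.single_eq_same]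
            exact ht0
          · rw [hval, Pi.single_eq_same]
            exact htQ
      · push Not at hinj
        obtain ⟨σ, hσ⟩ := hinj
        exact hZ.rep ξ σ hσ
  intro ξ
  have h1 := tot_nonneg w hw ξ
  exact main ((tot w ξ).toNat + 1) ξ (by push_cast; rw [Int.toNat_of_nonneg h1]; omega)

end Pool.Agent.X240.BM
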