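import Pool.Agent.X240.BM.Shape

/-!
# It is enough to have the difference equations at the strictly decreasing weights
-/

set_option autoImplicit false

namespace Pool.Agent.X240.BM

open Finset

section

variable {J : Type} [Fintype J] [DecidableEq J] {n : ℕ} {A : Type} [AddCommGroup A]

theorem bump_update_same (ξ : Wt J n) (σ : J) (c : ℤ) (S : Finset (Fin n))
    (w : Equiv.Perm (Fin n)) :
    bump (Function.update ξ σ (ξ σ ∘ w)) σ c S =
      Function.update (bump ξ σ c (S.map w.toEmbedding)) σ
        ((bump ξ σ c (S.map w.toEmbedding)) σ ∘ w) := by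
  funext τ j
  by_cases h : τ = σ
  · subst h
    unfold bump
    simp
  · unfold bump
    simp [h]

theorem bump_update_ne (ξ : Wt J n) {σ τ : J} (h : τ ≠ σ) (c : ℤ) (S : Finset (Fin n))
    (w : Equiv.Perm (Fin n)) :
    bump (Function.update ξ τ (ξ τ ∘ w)) σ c S =
      Function.update (bump ξ σ c S) τ ((bump ξ σ c S) τ ∘ w) := by
  funext ρ j
  by_cases h1 : ρ = τ
  · subst h1
    unfold bump
    simp [h]
  · unfold bump
    simp [h1]

theorem map_mem (w : Equiv.Perm (Fin n)) (i : ℕ) {S : Finset (Fin n)}
    (hS : S ∈ powersetCard i (univ : Finset (Fin n))) :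
    S.map w.toEmbedding ∈ powersetCard i (univ : Finset (Fin n)) := by
  rw [Finset.mem_powersetCard] at hS ⊢
  exact ⟨Finset.subset_univ _, by rw [Finset.card_map]; exact hS.2⟩

theorem sum_perm (Z : Wt J n → A) (hZ : Alt Z) (σ : J) (c : ℤ) (i : ℕ) (ξ : Wt J n)
    (w : Equiv.Perm (Fin n)) :
    ∑ S ∈ powersetCard i univ, Z (bump (Function.update ξ σ (ξ σ ∘ w)) σ c S) =
      ((Equiv.Perm.sign w : ℤˣ) : ℤ) • ∑ S ∈ powersetCard i univ, Z (bump ξ σ c S) := by
  rw [Finset.smul_sum]
  refine Finset.sum_bij (fun S _ => S.map w.toEmbedding) (fun S hS => map_mem w i hS)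
    (fun S _ S' _ h => Finset.map_injective _ h) (fun S hS => ?_) (fun S _ => ?_)
  · refine ⟨S.map w.symm.toEmbedding, map_mem w.symm i hS, ?_⟩
    ext j
    simp
  · rw [bump_update_same, hZ.perm]

theorem alt_sum (Z : Wt J n → A) (hZ : Alt Z) (σ : J) (c : ℤ) (i : ℕ) :
    Alt fun ξ => ∑ S ∈ powersetCard i univ, Z (bump ξ σ c S) := by
  classical
  constructor
  · intro ξ τ w
    by_cases h : τ = σ
    · subst h
      exact sum_perm Z hZ τ c i ξ w
    · rw [Finset.smul_sum]
      refine Finset.sum_congr rfl fun S _ => ?_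
      rw [bump_update_ne ξ h, hZ.perm]
  · intro ξ τ hτ
    by_cases h : τ = σ
    · subst h
      have hτ' := hτ
      rw [Function.Injective] at hτ'
      push Not at hτ'
      obtain ⟨j, k, hjk, hne⟩ := hτ'
      set w := Equiv.swap j k with hw
      have hfix : Function.update ξ τ (ξ τ ∘ w) = ξ := by
        funext ρ l
        by_cases hρ : ρ = τ
        · subst hρ
          rw [Function.update_self]
          show ξ ρ (Equiv.swap j k l) = ξ ρ l
          by_cases h1 : l = j
          · rw [h1, Equiv.swap_apply_left, hjk]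
          · by_cases h2 : l = k
            · rw [h2, Equiv.swap_apply_right, hjk]
            · rw [Equiv.swap_apply_of_ne_of_ne h1 h2]
        · rw [Function.update_of_ne hρ]
      have hneg : ∀ S : Finset (Fin n), Z (bump ξ τ c S) = -Z (bump ξ τ c (S.map w.toEmbedding)) := by
        intro S
        have h1 := bump_update_same ξ τ c S w
        rw [hfix] at h1
        rw [h1, hZ.perm, hw, Equiv.Perm.sign_swap hne]
        simp
      refine Finset.sum_involution (fun S _ => S.map w.toEmbedding) (fun S _ => ?_)
        (fun S _ hS0 hS => ?_) (fun S hS => map_mem w i hS) (fun S _ => ?_)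
      · rw [hneg S, neg_add_cancel]
      · apply hS0
        apply hZ.rep _ τ
        intro hinj
        apply hne
        apply hinj
        rw [bump_same]
        have hmem : j ∈ S ↔ k ∈ S := by
          constructor
          · intro hj
            have : w j ∈ S.map w.toEmbedding := by
              rw [Finset.mem_map]
              exact ⟨j, hj, rfl⟩
            rw [hS, hw, Equiv.swap_apply_left] at this
            exact this
          · intro hk
            have : w k ∈ S.map w.toEmbedding := by
              rw [Finset.mem_map]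
              exact ⟨k, hk, rfl⟩
            rw [hS, hw, Equiv.swap_apply_right] at this
            exact this
        show ξ τ j + c * ind S j = ξ τ k + c * ind S k
        unfold ind
        rw [hjk]
        simp only [hmem]
      · ext l
        rw [hw]
        simp
    · refine Finset.sum_eq_zero fun S _ => hZ.rep _ τ ?_
      rw [bump_ne ξ h]
      exact hτ

/-- The difference equations of `z` at all the strictly decreasing weights. -/
def HodgeEq (nx : J → J) (m : J → ℤ) (z : Wt J n → A) : Prop :=
  ∀ ξ : Wt J n, (∀ σ, StrictAnti (ξ σ)) → ∀ (σ : J) (i : ℕ), 1 ≤ i → i ≤ n →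
    ∑ S ∈ powersetCard i univ, altExt z (bump ξ σ (m σ) S) =
      ∑ S ∈ powersetCard i univ, altExt z (bump ξ (nx σ) 1 S)

theorem hodgeEq_iff (nx : J → J) (m : J → ℤ) (z : Wt J n → A) :
    HodgeEq nx m z ↔ DiffEq nx m (altExt z) := by
  constructor
  · intro h ξ σ i hi hn
    exact congrFun (alt_ext _ _ (alt_sum _ (altExt_alt z) σ (m σ) i)
      (alt_sum _ (altExt_alt z) (nx σ) 1 i) fun ξ hξ => h ξ hξ σ i hi hn) ξ
  · intro h ξ _ σ i hi hn
    exact h ξ σ i hi hn

end

/-! ### Two coordinates -/

section two

variable {J : Type} [Fintype J] [DecidableEq J] {A : Type} [AddCommGroup A]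

/-- The difference equations for pairs of weights: `x, y` are the two coordinates. -/
def PairEq (nx : J → J) (m : J → ℤ) (z : Wt J 2 → A) : Prop :=
  ∀ ξ : Wt J 2, (∀ σ, StrictAnti (ξ σ)) → ∀ σ : J,
    altExt z (bump ξ σ (m σ) {0}) + altExt z (bump ξ σ (m σ) {1}) =
      altExt z (bump ξ (nx σ) 1 {0}) + altExt z (bump ξ (nx σ) 1 {1}) ∧
    altExt z (bump ξ σ (m σ) {0, 1}) = altExt z (bump ξ (nx σ) 1 {0, 1})

theorem pairEq_iff (nx : J → J) (m : J → ℤ) (z : Wt J 2 → A) :
    PairEq nx m z ↔ HodgeEq nx m z := by
  have h1 : powersetCard 1 (univ : Finset (Fin 2)) = {{0}, {1}} := by decide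
  have h2 : powersetCard 2 (univ : Finset (Fin 2)) = {{0, 1}} := by decide
  have hne : ({0} : Finset (Fin 2)) ≠ {1} := by decide
  constructor
  · intro h ξ hξ σ i hi hn
    obtain ⟨ha, hb⟩ := h ξ hξ σ
    have : i = 1 ∨ i = 2 := by omega
    rcases this with rfl | rfl
    · rw [h1, Finset.sum_pair hne, Finset.sum_pair hne]
      exact ha
    · rw [h2, Finset.sum_singleton, Finset.sum_singleton]
      exact hb
  · intro h ξ hξ σ
    refine ⟨?_, ?_⟩
    · have := h ξ hξ σ 1 le_rfl (by norm_num)
      rwa [h1, Finset.sum_pair hne, Finset.sum_pair hne] at this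
    · have := h ξ hξ σ 2 (by norm_num) le_rfl
      rwa [h2, Finset.sum_singleton, Finset.sum_singleton] at this

end two

end Pool.Agent.X240.BM
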