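import Pool.Agent.X240.BM.Dom

/-!
# The final forms of the equivalences
-/

set_option autoImplicit false

namespace Pool.Agent.X240.BM

open Finset

section

variable {J W : Type} [Fintype J] [DecidableEq J] [Fintype W] [Nonempty W] {N : ℕ} {nx : J → J}
  {m : J → ℤ} {σ₀ : J} {Q : ℤ} {R : Type} [CommRing R] {A : Type} [AddCommGroup A]

/-- The cycles `c V` have the Breuil-Mezard property with respect to the cycles `z ξ` of the
crystalline representations with Hodge-Tate weights `ξ`. -/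
def HasCrystallineCycles (D : WeightRing J W N nx m σ₀ Q R) (z : Wt J (N + 1) → A) (c : W → A) :
    Prop :=
  ∀ ξ : Wt J (N + 1), (∀ σ, StrictAnti (ξ σ)) → z ξ = ∑ V, D.serre.repr (D.cls ξ) V • c V

theorem crys_iff_cycles (D : WeightRing J W N nx m σ₀ Q R) (z : Wt J (N + 1) → A) (c : W → A) :
    HasCrystallineCycles D z c ↔ HasCycles D (fun _ : Unit => (1 : R)) (fun _ => z) c := by
  constructor
  · intro h _ ξ hξ
    simp only [mul_one]
    exact h ξ hξ
  · intro h ξ hξ
    have := h () ξ hξ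
    simpa only [mul_one] using this

theorem crys_iff (hS : Shape nx m σ₀ Q) (D : WeightRing J W N nx m σ₀ Q R)
    (z : Wt J (N + 1) → A) : (∃! c, HasCrystallineCycles D z c) ↔ HodgeEq nx m z := by
  rw [hodgeEq_iff]
  have key := cycles_iff hS D (fun _ : Unit => (1 : R)) () rfl (fun _ => z)
  constructor
  · rintro ⟨c, hc, -⟩
    exact (key.mp ⟨c, (crys_iff_cycles D z c).mp hc⟩).1 ()
  · intro h
    obtain ⟨b, hb⟩ := exists_basis hS D
    have hres : RestrictedIdentities D (fun _ : Unit => (1 : R)) (fun _ => z) () := by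
      intro _ ξ hξ a ha
      simp only [mul_one] at ha
      have h1 : a = Finsupp.single ⟨ξ, hξ⟩ 1 := by
        apply b.repr.symm.injective
        rw [Module.Basis.repr_symm_apply, Module.Basis.repr_symm_apply,
          Finsupp.linearCombination_single, one_smul, hb, ha, Finsupp.linearCombination_apply]
        refine Finsupp.sum_congr fun ζ _ => ?_
        rw [hb]
      rw [h1, Finsupp.sum_single_index (by simp), one_smul]
    obtain ⟨c, hc⟩ := key.mpr ⟨fun _ => h, hres⟩
    refine ⟨c, (crys_iff_cycles D z c).mpr hc, fun c' hc' => ?_⟩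
    exact cycles_unique hS D (fun _ : Unit => (1 : R)) () rfl (fun _ => z) c' c
      ((crys_iff_cycles D z c').mp hc') hc

theorem types_iff {T : Type} (hS : Shape nx m σ₀ Q) (D : WeightRing J W N nx m σ₀ Q R)
    (θ : T → R) (t₀ : T) (ht : θ t₀ = 1) (z : T → Wt J (N + 1) → A) :
    (∃! c, HasCycles D θ z c) ↔
      (∀ τ, HodgeEq nx m (z τ)) ∧ RestrictedIdentities D θ z t₀ := by
  simp only [hodgeEq_iff]
  rw [← cycles_iff hS D θ t₀ ht z]
  constructor
  · rintro ⟨c, hc, -⟩
    exact ⟨c, hc⟩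
  · rintro ⟨c, hc⟩
    exact ⟨c, hc, fun c' hc' => cycles_unique hS D θ t₀ ht z c' c hc' hc⟩

theorem multiplicities_iff {T : Type} (hS : Shape nx m σ₀ Q) (D : WeightRing J W N nx m σ₀ Q R)
    (θ : T → R) (t₀ : T) (ht : θ t₀ = 1) (e : T → Wt J (N + 1) → ℕ) :
    (∃ μ, HasMultiplicities D θ e μ) ↔
      (∀ τ, HodgeEq nx m fun ξ => (e τ ξ : ℤ)) ∧
        RestrictedIdentities D θ (fun τ ξ => (e τ ξ : ℤ)) t₀ ∧ Positive D (e t₀) := by
  simp only [hodgeEq_iff]
  exact mult_iff hS D θ t₀ ht e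

theorem positive_of_lift (hS : Shape nx m σ₀ Q) (D : WeightRing J W N nx m σ₀ Q R)
    (hV : ∀ V, ∃ ζ, Restricted m σ₀ Q ζ ∧ D.cls ζ = D.serre V) (e₀ : Wt J (N + 1) → ℕ) :
    Positive D e₀ := by
  intro V a ha
  obtain ⟨b, hb⟩ := exists_basis hS D
  obtain ⟨ζ, hζ, hV⟩ := hV V
  have h1 : a = Finsupp.single ⟨ζ, hζ⟩ 1 := by
    apply b.repr.symm.injective
    rw [Module.Basis.repr_symm_apply, Module.Basis.repr_symm_apply,
      Finsupp.linearCombination_single, one_smul, hb]
    show _ = D.cls ζ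
    rw [hV, ha, Finsupp.linearCombination_apply]
    refine Finsupp.sum_congr fun ζ _ => ?_
    rw [hb]
  rw [h1, Finsupp.sum_single_index (by simp), one_mul]
  exact Int.natCast_nonneg _

end

end Pool.Agent.X240.BM
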