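import Pool.Agent.X240.BM.Alt

/-!
# Cycles with the Breuil-Mezard property and difference equations in the Hodge type
-/

set_option autoImplicit false

namespace Pool.Agent.X240.BM

open Finset

/-- The Grothendieck group `R` of the finite dimensional representations of `GL_n(k)` over the
algebraic closure of the residue field, `n = N + 1`, with its usual properties. `J` is the set of
embeddings of `K`. -/
structure WeightRing (J W : Type) [Fintype J] [DecidableEq J] (N : ℕ) (nx : J → J) (m : J → ℤ)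
    (σ₀ : J) (Q : ℤ) (R : Type) [CommRing R] where
  /-- the classes of the Serre weights are a basis -/
  serre : Module.Basis W ℤ R
  /-- `cls ξ`, if all the vectors `ξ σ` are strictly decreasing: the class of the reduction of the
  algebraic representation of highest weight `ξ σ i - (n - i)` -/
  cls : Wt J (N + 1) → R
  /-- `ext c σ i`: the class of the `i`-th exterior power of the standard representation, regarded as
  a representation over the residue field by means of `σ`, and twisted by the power `x ^ c` of the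
  Frobenius -/
  ext : ℤ → J → ℕ → R
  /-- `cls` is extended to all the families of vectors as an alternating function -/
  alt : Alt cls
  /-- Brauer's formula for the product with the orbit sums `∑ e ^ (c ε_S)`, `|S| = i` -/
  brauer : ∀ (ξ : Wt J (N + 1)) (σ : J) (i : ℕ) (c : ℤ), c = 1 ∨ c = m σ → 1 ≤ i → i ≤ N + 1 →
    cls ξ * ext c σ i = ∑ S ∈ powersetCard i univ, cls (bump ξ σ c S)
  /-- the twist by `x ^ (m σ)` of the exterior power at `σ` is the exterior power at `nx σ` -/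
  frob : ∀ (σ : J) (i : ℕ), ext (m σ) σ i = ext 1 (nx σ) i
  /-- every Serre weight is a virtual combination of reductions of algebraic representations -/
  spans : ∀ x : R, x ∈ Submodule.span ℤ (Set.range cls)
  /-- the number of the Serre weights -/
  card : Nat.card W = Nat.card {ξ : Wt J (N + 1) // Restricted m σ₀ Q ξ}

/-- The shape of the set of embeddings: the weights of the induction and the relations between the
shifts. -/
structure Shape {J : Type} [DecidableEq J] (nx : J → J) (m : J → ℤ) (σ₀ : J) (Q : ℤ) : Prop where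
  one_le : ∀ σ, 1 ≤ m σ
  wt : ∃ w : J → ℤ, (∀ σ, 0 < w σ) ∧ ∀ σ, w (nx σ) < m σ * w σ
  det : Det nx m σ₀ Q

section

variable {J W : Type} [Fintype J] [DecidableEq J] [Fintype W] [Nonempty W] {N : ℕ} {nx : J → J}
  {m : J → ℤ} {σ₀ : J} {Q : ℤ} {R : Type} [CommRing R] {A : Type} [AddCommGroup A]

theorem alt_map (D : WeightRing J W N nx m σ₀ Q R) (φ : R →ₗ[ℤ] A) (x : R) :
    Alt fun ξ => φ (D.cls ξ * x) := by
  constructor
  · intro ξ σ w
    rw [D.alt.perm, smul_mul_assoc, map_smul]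
  · intro ξ σ h
    rw [D.alt.rep ξ σ h, zero_mul, map_zero]

theorem diff_map (D : WeightRing J W N nx m σ₀ Q R) (φ : R →ₗ[ℤ] A) (x : R) :
    DiffEq nx m fun ξ => φ (D.cls ξ * x) := by
  intro ξ σ i hi hn
  have h1 := D.brauer ξ σ i (m σ) (Or.inr rfl) hi hn
  have h2 := D.brauer ξ (nx σ) i 1 (Or.inl rfl) hi hn
  rw [← map_sum, ← map_sum, ← Finset.sum_mul, ← Finset.sum_mul, ← h1, ← h2, D.frob]

theorem sub_diff {Z Z' : Wt J (N + 1) → A} (h : DiffEq nx m Z) (h' : DiffEq nx m Z') :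
    DiffEq nx m fun ξ => Z ξ - Z' ξ := by
  intro ξ σ i hi hn
  simp only [Finset.sum_sub_distrib]
  rw [h ξ σ i hi hn, h' ξ σ i hi hn]

theorem sub_alt {Z Z' : Wt J (N + 1) → A} (h : Alt Z) (h' : Alt Z') :
    Alt fun ξ => Z ξ - Z' ξ := by
  constructor
  · intro ξ σ w
    rw [h.perm, h'.perm, smul_sub]
  · intro ξ σ hi
    rw [h.rep ξ σ hi, h'.rep ξ σ hi, sub_zero]

/-- Two alternating solutions which agree at the restricted weights are equal. -/
theorem eq_of_restricted (hS : Shape nx m σ₀ Q) {Z Z' : Wt J (N + 1) → A} (h : Alt Z)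
    (h' : Alt Z') (hd : DiffEq nx m Z) (hd' : DiffEq nx m Z')
    (he : ∀ ξ, Restricted m σ₀ Q ξ → Z ξ = Z' ξ) (ξ : Wt J (N + 1)) : Z ξ = Z' ξ := by
  obtain ⟨w, hw, hmw⟩ := hS.wt
  exact sub_eq_zero.mp (zero_of_restricted nx m w σ₀ Q hS.one_le hw hmw hS.det _ (sub_alt h h')
    (sub_diff hd hd') (fun ξ hξ => sub_eq_zero.mpr (he ξ hξ)) ξ)

/-- The classes of the restricted weights are a basis. -/
theorem exists_basis (hS : Shape nx m σ₀ Q) (D : WeightRing J W N nx m σ₀ Q R) :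
    ∃ b : Module.Basis {ξ : Wt J (N + 1) // Restricted m σ₀ Q ξ} ℤ R, ∀ ξ, b ξ = D.cls ξ.1 := by
  classical
  obtain ⟨w, hw, hmw⟩ := hS.wt
  set P := {ξ : Wt J (N + 1) // Restricted m σ₀ Q ξ} with hP
  set M : Submodule ℤ R := Submodule.span ℤ (Set.range fun ξ : P => D.cls ξ.1) with hM
  have hcls : ∀ ξ, D.cls ξ ∈ M := by
    intro ξ
    have ha : Alt fun ξ => M.mkQ (D.cls ξ) := by
      have := alt_map (A := R ⧸ M) D M.mkQ 1
      simpa using this
    have hd : DiffEq nx m fun ξ => M.mkQ (D.cls ξ) := by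
      have := diff_map (A := R ⧸ M) D M.mkQ 1
      simpa using this
    have h0 := zero_of_restricted nx m w σ₀ Q hS.one_le hw hmw hS.det _ ha hd
      (fun ξ hξ => by
        rw [Submodule.mkQ_apply, Submodule.Quotient.mk_eq_zero]
        exact Submodule.subset_span ⟨⟨ξ, hξ⟩, rfl⟩) ξ
    rwa [Submodule.mkQ_apply, Submodule.Quotient.mk_eq_zero] at h0
  have htop : M = ⊤ := by
    rw [eq_top_iff]
    intro x _
    have := D.spans x
    have hle : Submodule.span ℤ (Set.range D.cls) ≤ M := by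
      rw [Submodule.span_le]
      rintro _ ⟨ξ, rfl⟩
      exact hcls ξ
    exact hle this
  have hPf : Finite P := by
    apply Nat.finite_of_card_ne_zero
    rw [← D.card]
    exact Nat.card_pos.ne'
  let _ : Fintype P := Fintype.ofFinite P
  let e : W ≃ P := Fintype.equivOfCardEq (by
    rw [← Nat.card_eq_fintype_card, ← Nat.card_eq_fintype_card]
    exact D.card)
  let f : (P →₀ ℤ) →ₗ[ℤ] R := Finsupp.linearCombination ℤ fun ξ : P => D.cls ξ.1
  have hf : Function.Surjective f := by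
    rw [← LinearMap.range_eq_top, Finsupp.range_linearCombination]
    exact htop
  let E : (W →₀ ℤ) ≃ₗ[ℤ] (P →₀ ℤ) := Finsupp.domLCongr e
  let g : (P →₀ ℤ) →ₗ[ℤ] (P →₀ ℤ) := E.toLinearMap ∘ₗ D.serre.repr.toLinearMap ∘ₗ f
  have hg : Function.Surjective g := by
    intro y
    obtain ⟨x, hx⟩ := hf (D.serre.repr.symm (E.symm y))
    refine ⟨x, ?_⟩
    show E (D.serre.repr (f x)) = y
    rw [hx, LinearEquiv.apply_symm_apply, LinearEquiv.apply_symm_apply]
  have hgi : Function.Injective g := OrzechProperty.injective_of_surjective_endomorphism g hg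
  have hfi : Function.Injective f := by
    intro x y hxy
    apply hgi
    show E (D.serre.repr (f x)) = E (D.serre.repr (f y))
    rw [hxy]
  refine ⟨Module.Basis.ofRepr (LinearEquiv.ofBijective f ⟨hfi, hf⟩).symm, fun ξ => ?_⟩
  rw [Module.Basis.coe_ofRepr]
  simp [f]

/-- A solution comes from an additive map on the Grothendieck group. -/
theorem exists_map (hS : Shape nx m σ₀ Q) (D : WeightRing J W N nx m σ₀ Q R)
    (Z : Wt J (N + 1) → A) (hZ : Alt Z) (hD : DiffEq nx m Z) :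
    ∃ φ : R →ₗ[ℤ] A, ∀ ξ, Z ξ = φ (D.cls ξ) := by
  obtain ⟨b, hb⟩ := exists_basis hS D
  let φ : R →ₗ[ℤ] A := b.constr ℤ fun ξ => Z ξ.1
  refine ⟨φ, ?_⟩
  have ha := alt_map D φ 1
  have hd := diff_map D φ 1
  simp only [mul_one] at ha hd
  apply eq_of_restricted hS hZ ha hD hd
  intro ξ hξ
  have h1 := b.constr_basis ℤ (fun ξ => Z ξ.1) ⟨ξ, hξ⟩
  rw [hb] at h1
  exact h1.symm

theorem strictAnti_of_restricted {ξ : Wt J (N + 1)} (h : Restricted m σ₀ Q ξ) (σ : J) :
    StrictAnti (ξ σ) := by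
  rw [Fin.strictAnti_iff_succ_lt]
  intro i
  have := h.pos σ i
  omega

theorem map_eq_sum (D : WeightRing J W N nx m σ₀ Q R) (φ : R →ₗ[ℤ] A) (x : R) :
    φ x = ∑ V, D.serre.repr x V • φ (D.serre V) := by
  conv_lhs => rw [← D.serre.sum_repr x]
  rw [map_sum]
  refine Finset.sum_congr rfl fun V _ => ?_
  rw [map_smul]

/-- Cycles (or multiplicities) with the Breuil-Mezard property, for all Hodge types and inertial
types `τ`. `θ τ` is the class of the reduction of the type of `τ`. -/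
def HasCycles {T : Type} (D : WeightRing J W N nx m σ₀ Q R) (θ : T → R)
    (z : T → Wt J (N + 1) → A) (c : W → A) : Prop :=
  ∀ (τ : T) (ξ : Wt J (N + 1)), (∀ σ, StrictAnti (ξ σ)) →
    z τ ξ = ∑ V, D.serre.repr (D.cls ξ * θ τ) V • c V

/-- The identities at the restricted weights. -/
def RestrictedIdentities {T : Type} (D : WeightRing J W N nx m σ₀ Q R) (θ : T → R)
    (z : T → Wt J (N + 1) → A) (t₀ : T) : Prop :=
  ∀ (τ : T) (ξ : Wt J (N + 1)), Restricted m σ₀ Q ξ →
    ∀ a : {ζ : Wt J (N + 1) // Restricted m σ₀ Q ζ} →₀ ℤ,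
      D.cls ξ * θ τ = a.sum (fun ζ k => k • D.cls ζ.1) →
        z τ ξ = a.sum fun ζ k => k • z t₀ ζ.1

theorem cycles_iff {T : Type} (hS : Shape nx m σ₀ Q) (D : WeightRing J W N nx m σ₀ Q R)
    (θ : T → R) (t₀ : T) (ht : θ t₀ = 1) (z : T → Wt J (N + 1) → A) :
    (∃ c, HasCycles D θ z c) ↔
      (∀ τ, DiffEq nx m (altExt (z τ))) ∧ RestrictedIdentities D θ z t₀ := by
  constructor
  · rintro ⟨c, hc⟩
    let φ : R →ₗ[ℤ] A := D.serre.constr ℤ c
    have hφ : ∀ V, φ (D.serre V) = c V := fun V => D.serre.constr_basis ℤ c V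
    have hz : ∀ τ ξ, (∀ σ, StrictAnti (ξ σ)) → z τ ξ = φ (D.cls ξ * θ τ) := by
      intro τ ξ hξ
      rw [hc τ ξ hξ, map_eq_sum D φ]
      simp only [hφ]
    refine ⟨fun τ => ?_, ?_⟩
    · have : altExt (z τ) = fun ξ => φ (D.cls ξ * θ τ) :=
        alt_ext _ _ (altExt_alt _) (alt_map D φ _) fun ξ hξ => by
          rw [altExt_strict _ _ hξ, hz τ ξ hξ]
      rw [this]
      exact diff_map D φ _
    · intro τ ξ hξ a ha
      rw [hz τ ξ (strictAnti_of_restricted hξ), ha, map_finsuppSum]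
      refine Finsupp.sum_congr fun ζ _ => ?_
      rw [map_smul, hz t₀ ζ.1 (strictAnti_of_restricted ζ.2), ht, mul_one]
  · rintro ⟨hdiff, hres⟩
    obtain ⟨φ, hφ⟩ := exists_map hS D (altExt (z t₀)) (altExt_alt _) (hdiff t₀)
    obtain ⟨b, hb⟩ := exists_basis hS D
    refine ⟨fun V => φ (D.serre V), fun τ ξ hξ => ?_⟩
    rw [← map_eq_sum D φ]
    rw [← altExt_strict (z τ) ξ hξ]
    refine eq_of_restricted hS (altExt_alt _) (alt_map D φ (θ τ)) (hdiff τ) (diff_map D φ (θ τ))
      (fun ζ hζ => ?_) ξ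
    rw [altExt_strict _ _ (strictAnti_of_restricted hζ)]
    have h1 : D.cls ζ * θ τ = (b.repr (D.cls ζ * θ τ)).sum fun ζ' k => k • D.cls ζ'.1 := by
      conv_lhs => rw [← b.linearCombination_repr (D.cls ζ * θ τ)]
      rw [Finsupp.linearCombination_apply]
      refine Finsupp.sum_congr fun ζ' _ => ?_
      rw [hb]
    rw [hres τ ζ hζ _ h1]
    conv_rhs => rw [h1]
    rw [map_finsuppSum]
    refine Finsupp.sum_congr fun ζ' _ => ?_
    rw [map_smul, ← hφ, altExt_strict _ _ (strictAnti_of_restricted ζ'.2)]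

theorem cycles_unique {T : Type} (hS : Shape nx m σ₀ Q) (D : WeightRing J W N nx m σ₀ Q R)
    (θ : T → R) (t₀ : T) (ht : θ t₀ = 1) (z : T → Wt J (N + 1) → A) (c c' : W → A)
    (h : HasCycles D θ z c) (h' : HasCycles D θ z c') : c = c' := by
  let φ : R →ₗ[ℤ] A := D.serre.constr ℤ c
  let φ' : R →ₗ[ℤ] A := D.serre.constr ℤ c'
  have hφ : ∀ V, φ (D.serre V) = c V := fun V => D.serre.constr_basis ℤ c V
  have hφ' : ∀ V, φ' (D.serre V) = c' V := fun V => D.serre.constr_basis ℤ c' V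
  have hz : ∀ ξ, (∀ σ, StrictAnti (ξ σ)) → φ (D.cls ξ) = φ' (D.cls ξ) := by
    intro ξ hξ
    have h1 := h t₀ ξ hξ
    have h2 := h' t₀ ξ hξ
    rw [ht, mul_one] at h1 h2
    rw [map_eq_sum D φ, map_eq_sum D φ']
    simp only [hφ, hφ']
    rw [← h1, ← h2]
  obtain ⟨b, hb⟩ := exists_basis hS D
  have : φ = φ' := b.ext fun ξ => by
    rw [hb]
    exact hz _ (strictAnti_of_restricted ξ.2)
  funext V
  rw [← hφ, ← hφ', this]

/-- The positivity of the solution. -/
def Positive (D : WeightRing J W N nx m σ₀ Q R) (e₀ : Wt J (N + 1) → ℕ) : Prop :=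
  ∀ (V : W) (a : {ζ : Wt J (N + 1) // Restricted m σ₀ Q ζ} →₀ ℤ),
    D.serre V = a.sum (fun ζ k => k • D.cls ζ.1) → 0 ≤ a.sum fun ζ k => k * (e₀ ζ.1 : ℤ)

/-- Non-negative multiplicities with the Breuil-Mezard property. -/
def HasMultiplicities {T : Type} (D : WeightRing J W N nx m σ₀ Q R) (θ : T → R)
    (e : T → Wt J (N + 1) → ℕ) (μ : W → ℕ) : Prop :=
  ∀ (τ : T) (ξ : Wt J (N + 1)), (∀ σ, StrictAnti (ξ σ)) →
    (e τ ξ : ℤ) = ∑ V, D.serre.repr (D.cls ξ * θ τ) V * (μ V : ℤ)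

theorem mult_iff {T : Type} (hS : Shape nx m σ₀ Q) (D : WeightRing J W N nx m σ₀ Q R)
    (θ : T → R) (t₀ : T) (ht : θ t₀ = 1) (e : T → Wt J (N + 1) → ℕ) :
    (∃ μ, HasMultiplicities D θ e μ) ↔
      (∀ τ, DiffEq nx m (altExt fun ξ => (e τ ξ : ℤ))) ∧
        RestrictedIdentities D θ (fun τ ξ => (e τ ξ : ℤ)) t₀ ∧ Positive D (e t₀) := by
  have key := cycles_iff hS D θ t₀ ht (fun τ ξ => (e τ ξ : ℤ))
  obtain ⟨b, hb⟩ := exists_basis hS D
  -- the value of a solution at a Serre weight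
  have hval : ∀ c : W → ℤ, HasCycles D θ (fun τ ξ => (e τ ξ : ℤ)) c → ∀ (V : W)
      (a : {ζ : Wt J (N + 1) // Restricted m σ₀ Q ζ} →₀ ℤ),
      D.serre V = a.sum (fun ζ k => k • D.cls ζ.1) → c V = a.sum fun ζ k => k * (e t₀ ζ.1 : ℤ) := by
    intro c hc V a ha
    let φ : R →ₗ[ℤ] ℤ := D.serre.constr ℤ c
    have hφ : ∀ V, φ (D.serre V) = c V := fun V => D.serre.constr_basis ℤ c V
    rw [← hφ, ha, map_finsuppSum]
    refine Finsupp.sum_congr fun ζ _ => ?_
    rw [map_smul, smul_eq_mul]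
    congr 1
    have h1 := hc t₀ ζ.1 (strictAnti_of_restricted ζ.2)
    rw [ht, mul_one] at h1
    rw [map_eq_sum D φ]
    simp only [hφ]
    exact h1.symm
  have hrep : ∀ V : W, D.serre V = (b.repr (D.serre V)).sum fun ζ' k => k • D.cls ζ'.1 := by
    intro V
    conv_lhs => rw [← b.linearCombination_repr (D.serre V)]
    rw [Finsupp.linearCombination_apply]
    refine Finsupp.sum_congr fun ζ' _ => ?_
    rw [hb]
  constructor
  · rintro ⟨μ, hμ⟩
    have hc : HasCycles D θ (fun τ ξ => (e τ ξ : ℤ)) (fun V => (μ V : ℤ)) := by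
      intro τ ξ hξ
      simp only [smul_eq_mul]
      exact hμ τ ξ hξ
    obtain ⟨h1, h2⟩ := key.mp ⟨_, hc⟩
    refine ⟨h1, h2, fun V a ha => ?_⟩
    rw [← hval _ hc V a ha]
    exact Int.natCast_nonneg _
  · rintro ⟨h1, h2, h3⟩
    obtain ⟨c, hc⟩ := key.mpr ⟨h1, h2⟩
    have hpos : ∀ V, 0 ≤ c V := by
      intro V
      rw [hval c hc V _ (hrep V)]
      exact h3 V _ (hrep V)
    refine ⟨fun V => (c V).toNat, fun τ ξ hξ => ?_⟩
    have h4 := hc τ ξ hξ
    simp only [smul_eq_mul] at h4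
    rw [h4]
    refine Finset.sum_congr rfl fun V _ => ?_
    rw [Int.toNat_of_nonneg (hpos V)]

end

end Pool.Agent.X240.BM
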