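import Pool.Agent.X240.BM.Main

/-!
# The embeddings of a `p`-adic field
-/

set_option autoImplicit false

namespace Pool.Agent.X240.BM

open Finset

section general

variable {J : Type} [Fintype J] [DecidableEq J]

theorem det_of (nx : J → J) (m : J → ℤ) (σ₀ : J) (Q : ℤ) (hQ : 0 < Q)
    (h : ∀ σ : J, ∃ s : ℤ, (Pi.single σ 1 - s • Pi.single σ₀ 1 : J → ℤ) ∈
      AddSubgroup.closure (Set.range fun σ => (Pi.single σ (m σ) - Pi.single (nx σ) 1 : J → ℤ)))
    (hQm : (Q • Pi.single σ₀ 1 : J → ℤ) ∈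
      AddSubgroup.closure (Set.range fun σ => (Pi.single σ (m σ) - Pi.single (nx σ) 1 : J → ℤ))) :
    Det nx m σ₀ Q := by
  intro c
  set H := AddSubgroup.closure (Set.range fun σ => (Pi.single σ (m σ) - Pi.single (nx σ) 1 : J → ℤ))
  choose s hs using h
  have h1 : c - (∑ σ, c σ * s σ) • (Pi.single σ₀ 1 : J → ℤ) ∈ H := by
    have h2 : c - (∑ σ, c σ * s σ) • (Pi.single σ₀ 1 : J → ℤ) =
        ∑ σ, c σ • ((Pi.single σ 1 : J → ℤ) - s σ • Pi.single σ₀ 1) := by
      simp only [smul_sub, Finset.sum_sub_distrib, smul_smul, ← Finset.sum_smul]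
      congr 1
      funext τ
      rw [Finset.sum_apply]
      simp [Pi.single_apply]
    rw [h2]
    exact H.sum_mem fun σ _ => H.zsmul_mem (hs σ) _
  set S := ∑ σ, c σ * s σ
  refine ⟨S % Q, Int.emod_nonneg _ hQ.ne', Int.emod_lt_of_pos _ hQ, ?_⟩
  have h3 : c - Pi.single σ₀ (S % Q) =
      (c - S • (Pi.single σ₀ 1 : J → ℤ)) + (S / Q) • (Q • (Pi.single σ₀ 1 : J → ℤ)) := by
    have h4 : (Pi.single σ₀ (S % Q) : J → ℤ) = (S % Q) • Pi.single σ₀ 1 := by
      rw [← Pi.single_smul, smul_eq_mul, mul_one]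
    rw [h4, smul_smul]
    have h5 := Int.emod_add_mul_ediv S Q
    have h6 : S • (Pi.single σ₀ 1 : J → ℤ) =
        (S % Q) • Pi.single σ₀ 1 + (S / Q * Q) • Pi.single σ₀ 1 := by
      rw [← add_smul]
      congr 1
      rw [mul_comm (S / Q) Q]
      exact h5.symm
    rw [h6]
    abel
  rw [h3]
  exact H.add_mem h1 (H.zsmul_mem hQm _)

end general

/-- The next embedding. The embeddings of a `p`-adic field with residue degree `f` and ramification
index `e` are numbered `(a, b)`, such that the residue embedding of `(a, b)` is the `p ^ a`-th power of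
that of `(0, 0)`. -/
def nextEmb {f e : ℕ} [NeZero f] [NeZero e] (σ : Fin f × Fin e) : Fin f × Fin e :=
  if σ.2 = 0 then (σ.1 + 1, 0) else (σ.1, 0)

/-- `p` for the embeddings `(a, 0)`, `1` for the other ones. -/
def step {f e : ℕ} [NeZero e] (p : ℕ) (σ : Fin f × Fin e) : ℤ := if σ.2 = 0 then (p : ℤ) else 1

theorem shape_field (p f e : ℕ) [NeZero f] [NeZero e] (hp : 2 ≤ p) :
    Shape (nextEmb (f := f) (e := e)) (step p) (0, 0) ((p : ℤ) ^ f - 1) := by
  have hpf : (2 : ℤ) ≤ (p : ℤ) ^ f := by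
    have hf : f ≠ 0 := NeZero.ne f
    have h1 : p ^ 1 ≤ p ^ f := Nat.pow_le_pow_right (by omega) (by omega)
    rw [pow_one] at h1
    have h2 : 2 ≤ p ^ f := hp.trans h1
    exact_mod_cast h2
  refine ⟨?_, ⟨fun σ => if σ.2 = 0 then 1 else 2, ?_, ?_⟩, ?_⟩
  · intro σ
    unfold step
    split_ifs
    · have : (2 : ℤ) ≤ p := by exact_mod_cast hp
      omega
    · exact le_rfl
  · intro σ
    dsimp only
    split_ifs <;> norm_num
  · intro σ
    have h2 : (2 : ℤ) ≤ p := by exact_mod_cast hp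
    by_cases h : σ.2 = 0
    · simp only [nextEmb, step, h, if_true]
      omega
    · simp only [nextEmb, step, h, if_true, if_false]
      norm_num
  · set H := AddSubgroup.closure (Set.range fun σ : Fin f × Fin e =>
      (Pi.single σ (step p σ) - Pi.single (nextEmb σ) 1 : Fin f × Fin e → ℤ)) with hH
    have hgen : ∀ σ : Fin f × Fin e, (step p σ) • (Pi.single σ 1 : Fin f × Fin e → ℤ) -
        Pi.single (nextEmb σ) 1 ∈ H := by
      intro σ
      have h1 : (Pi.single σ (step p σ) - Pi.single (nextEmb σ) 1 : Fin f × Fin e → ℤ) ∈ H :=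
        AddSubgroup.subset_closure ⟨σ, rfl⟩
      have h2 : (Pi.single σ (step p σ) : Fin f × Fin e → ℤ) =
          (step p σ) • (Pi.single σ 1 : Fin f × Fin e → ℤ) := by
        rw [← Pi.single_smul, smul_eq_mul, mul_one]
      rwa [h2] at h1
    have hrep : ∀ a : Fin f, (p : ℤ) • (Pi.single (a, 0) 1 : Fin f × Fin e → ℤ) -
        Pi.single (a + 1, 0) 1 ∈ H := by
      intro a
      have := hgen (a, 0)
      unfold step nextEmb at this
      simpa using this
    have hpow : ∀ a : ℕ, ∀ ha : a < f,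
        ((p : ℤ) ^ a) • (Pi.single ((0 : Fin f), (0 : Fin e)) 1 : Fin f × Fin e → ℤ) -
          Pi.single ((⟨a, ha⟩ : Fin f), (0 : Fin e)) 1 ∈ H := by
      intro a
      induction a with
      | zero =>
        intro ha
        have : (⟨0, ha⟩ : Fin f) = 0 := Fin.ext (by simp)
        rw [this, pow_zero, one_smul, sub_self]
        exact H.zero_mem
      | succ a ih =>
        intro ha
        have h1 := H.zsmul_mem (ih (by omega)) (p : ℤ)
        have h2 := hrep ⟨a, by omega⟩
        have h3 : (⟨a, by omega⟩ : Fin f) + 1 = ⟨a + 1, ha⟩ := by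
          apply Fin.ext
          rw [Fin.val_add]
          have : ((1 : Fin f) : ℕ) = 1 := by
            rw [Fin.val_one']
            exact Nat.mod_eq_of_lt (by omega)
          rw [this]
          exact Nat.mod_eq_of_lt ha
        rw [h3] at h2
        have h4 := H.add_mem h1 h2
        rw [smul_sub, smul_smul, sub_add_sub_cancel, ← pow_succ'] at h4
        exact h4
    have hQ : (((p : ℤ) ^ f - 1) • Pi.single ((0 : Fin f), (0 : Fin e)) 1 : Fin f × Fin e → ℤ) ∈ H := by
      have hf : 0 < f := NeZero.pos f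
      have h1 := H.zsmul_mem (hpow (f - 1) (by omega)) (p : ℤ)
      have h2 := hrep ⟨f - 1, by omega⟩
      have h3 : (⟨f - 1, by omega⟩ : Fin f) + 1 = 0 := by
        apply Fin.ext
        rw [Fin.val_add, Fin.val_one', Nat.add_mod_mod]
        have : f - 1 + 1 = f := by omega
        show (f - 1 + 1) % f = ((0 : Fin f) : ℕ)
        rw [this, Nat.mod_self]
        simp
      rw [h3] at h2
      have h4 := H.add_mem h1 h2
      rw [smul_sub, smul_smul, sub_add_sub_cancel, ← pow_succ'] at h4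
      have h5 : f - 1 + 1 = f := by omega
      rw [h5] at h4
      rw [sub_smul, one_smul]
      exact h4
    refine det_of _ _ _ _ (by omega) ?_ hQ
    have hzero : ∀ a : Fin f, ∃ s : ℤ, (Pi.single (a, (0 : Fin e)) 1 -
        s • Pi.single ((0 : Fin f), (0 : Fin e)) 1 : Fin f × Fin e → ℤ) ∈ H := by
      intro a
      refine ⟨(p : ℤ) ^ a.val, ?_⟩
      have h1 := H.neg_mem (hpow a.val a.isLt)
      rw [neg_sub] at h1
      exact h1
    rintro ⟨a, b⟩
    by_cases hb : b = 0
    · subst hb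
      exact hzero a
    · obtain ⟨s, hs⟩ := hzero a
      refine ⟨s, ?_⟩
      have h1 := hgen (a, b)
      unfold step nextEmb at h1
      simp only [hb, if_false, one_smul] at h1
      have h2 := H.add_mem h1 hs
      rw [sub_add_sub_cancel] at h2
      exact h2

theorem shape_Qp (p : ℕ) (hp : 2 ≤ p) :
    Shape (id : Unit → Unit) (fun _ => (p : ℤ)) () ((p : ℤ) - 1) := by
  have hp' : (2 : ℤ) ≤ p := by exact_mod_cast hp
  refine ⟨fun _ => by omega, ⟨fun _ => 1, fun _ => one_pos, fun _ => ?_⟩, ?_⟩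
  · show (1 : ℤ) < (p : ℤ) * 1
    omega
  refine det_of _ _ _ _ (by omega) ?_ ?_
  · intro σ
    exact ⟨1, by rw [one_smul, Subsingleton.elim σ (), sub_self]; exact AddSubgroup.zero_mem _⟩
  · have h1 : (Pi.single () (p : ℤ) - Pi.single (id ()) 1 : Unit → ℤ) ∈
        AddSubgroup.closure (Set.range fun σ : Unit =>
          (Pi.single σ (p : ℤ) - Pi.single (id σ) 1 : Unit → ℤ)) :=
      AddSubgroup.subset_closure ⟨(), rfl⟩
    have h2 : (Pi.single () (p : ℤ) - Pi.single (id ()) 1 : Unit → ℤ) =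
        ((p : ℤ) - 1) • Pi.single () 1 := by
      funext τ
      simp
    rwa [h2] at h1

end Pool.Agent.X240.BM
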