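import Pool.Agent.X240.BM.Final

/-!
# Relations between the multiplicities for a type and those for the trivial type
-/

set_option autoImplicit false

namespace Pool.Agent.X240.BM

open Finset

/-- The vector `(N, …, 1, 0)`. -/
def rho (N : ℕ) : Fin (N + 1) → ℤ := fun j => (N : ℤ) - (j.val : ℤ)

theorem rho_strictAnti (N : ℕ) : StrictAnti (rho N) := by
  intro i j h
  have : i.val < j.val := h
  unfold rho
  omega

/-- Alternating functions of one vector. -/
structure Alt1 {n : ℕ} {A : Type} [AddCommGroup A] (F : (Fin n → ℤ) → A) : Prop where
  perm : ∀ (x : Fin n → ℤ) (w : Equiv.Perm (Fin n)),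
    F (x ∘ w) = ((Equiv.Perm.sign w : ℤˣ) : ℤ) • F x
  rep : ∀ x : Fin n → ℤ, ¬ Function.Injective x → F x = 0

theorem zero_of_sign {A : Type} [AddCommGroup A] {n : ℕ} (w : Equiv.Perm (Fin n)) (a : A)
    (h : ((Equiv.Perm.sign w : ℤˣ) : ℤ) • a = 0) : a = 0 := by
  rcases Int.units_eq_one_or (Equiv.Perm.sign w) with hs | hs
  · rw [hs] at h
    simpa using h
  · rw [hs] at h
    simpa using h

theorem sum_ind {n : ℕ} (S : Finset (Fin n)) : ∑ j, ind S j = (S.card : ℤ) := by
  unfold ind
  simp

theorem hgt_shift {n : ℕ} (x : Fin n → ℤ) (c : ℤ) : hgt (fun j => x j + c) = hgt x := by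
  unfold hgt
  refine Finset.sum_congr rfl fun j _ => Finset.sum_congr rfl fun k _ => ?_
  congr 1
  ring

/-- An alternating function with Brauer's formulas is determined by its value at `rho`. -/
theorem zero_of_rho {N : ℕ} {R : Type} [CommRing R] (e : ℕ → R) (F : (Fin (N + 1) → ℤ) → R)
    (hF : Alt1 F)
    (hb : ∀ (x : Fin (N + 1) → ℤ) (i : ℕ), 1 ≤ i → i ≤ N + 1 →
      F x * e i = ∑ S ∈ powersetCard i univ, F (fun j => x j + ind S j))
    (h0 : F (rho N) = 0) : ∀ x : Fin (N + 1) → ℤ, (∀ j, 0 ≤ x j) → F x = 0 := by
  classical
  have main : ∀ k : ℕ, ∀ x : Fin (N + 1) → ℤ, (∀ j, 0 ≤ x j) → hgt x + ∑ j, x j < k →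
      F x = 0 := by
    intro k
    induction k with
    | zero =>
      intro x hx hk
      have h1 := hgt_nonneg x
      have h2 : 0 ≤ ∑ j, x j := Finset.sum_nonneg fun j _ => hx j
      simp at hk
      omega
    | succ k ih =>
      intro x hx hk
      by_cases hinj : Function.Injective x
      swap
      · exact hF.rep x hinj
      apply zero_of_sign (dsort x)
      rw [← hF.perm]
      have hη := strictAnti_dsort x hinj
      have hη0 : ∀ j, 0 ≤ (x ∘ dsort x) j := fun j => hx _
      have hsum : ∑ j, (x ∘ dsort x) j = ∑ j, x j := Equiv.sum_comp (dsort x) x
      rw [← hgt_perm x (dsort x), ← hsum] at hk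
      generalize x ∘ dsort x = η at hη hη0 hk ⊢
      clear hx hinj hsum x
      by_cases hgap : ∃ i : Fin N, 1 < η i.castSucc - η i.succ
      · obtain ⟨i, hgi⟩ := hgap
        set S₀ : Finset (Fin (N + 1)) := seg (N + 1) (i.val + 1) with hS₀
        have hc₀ : S₀.card = i.val + 1 := card_seg (by omega)
        set θ : Fin (N + 1) → ℤ := fun j => η j - ind S₀ j with hθ
        have hθa : StrictAnti θ := by
          rw [Fin.strictAnti_iff_succ_lt]
          intro j
          have hj := (Fin.strictAnti_iff_succ_lt.mp hη) j
          show η j.succ - ind S₀ j.succ < η j.castSucc - ind S₀ j.castSucc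
          by_cases hji : j = i
          · subst hji
            have e1 : ind S₀ j.succ = 0 := by
              unfold ind; rw [if_neg]; rw [hS₀]; unfold seg; simp
            have e2 : ind S₀ j.castSucc = 1 := by
              unfold ind; rw [if_pos]; rw [hS₀]; unfold seg; simp
            rw [e1, e2]
            omega
          · have e1 : ind S₀ j.succ = ind S₀ j.castSucc := by
              unfold ind
              rw [hS₀]
              unfold seg
              have : j.val ≠ i.val := fun h => hji (Fin.ext h)
              simp only [Finset.mem_filter, Finset.mem_univ, true_and, Fin.val_succ,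
                Fin.val_castSucc]
              split_ifs <;> first | rfl | omega
            rw [e1]
            omega
        have hlast : ind S₀ (Fin.last N) = 0 := by
          unfold ind
          rw [if_neg]
          rw [hS₀]
          unfold seg
          have := i.isLt
          simp only [Finset.mem_filter, Finset.mem_univ, true_and, Fin.val_last]
          omega
        have hθ0 : ∀ j, 0 ≤ θ j := by
          intro j
          have h1 : θ (Fin.last N) ≤ θ j := hθa.antitone (Fin.le_last j)
          have h2 : θ (Fin.last N) = η (Fin.last N) := by
            rw [hθ]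
            show η (Fin.last N) - ind S₀ (Fin.last N) = _
            rw [hlast, sub_zero]
          have h3 := hη0 (Fin.last N)
          omega
        have hback : (fun j => θ j + ind S₀ j) = η := by
          funext j
          rw [hθ]
          show η j - ind S₀ j + ind S₀ j = η j
          ring
        set D : ℤ := 2 * (((i.val + 1 : ℕ) : ℤ) * ((N + 1 : ℕ) - ((i.val + 1 : ℕ) : ℤ))) with hDdef
        have hDpos : 0 < D := by
          have hi := i.isLt
          have : (0 : ℤ) < ((N + 1 : ℕ) : ℤ) - ((i.val + 1 : ℕ) : ℤ) := by omega
          have h2 : (0 : ℤ) < ((i.val + 1 : ℕ) : ℤ) := by omega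
          rw [hDdef]
          positivity
        have hhη : hgt η = hgt θ + D := by
          have := hgt_seg θ hθa (i.val + 1) 1 (by norm_num)
          rw [← hS₀, hc₀, one_mul, ← hDdef] at this
          simp only [one_mul] at this
          rw [hback] at this
          exact this
        have hsη : ∀ S : Finset (Fin (N + 1)), ∑ j, (θ j + ind S j) = ∑ j, θ j + S.card := by
          intro S
          rw [Finset.sum_add_distrib, sum_ind]
        have hsη' : ∑ j, η j = ∑ j, θ j + (i.val + 1 : ℕ) := by
          rw [← hc₀, ← hsη S₀, hback]
        have heq := hb θ (i.val + 1) (by omega) (by have := i.isLt; omega)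
        have hθz : F θ = 0 := by
          apply ih θ hθ0
          push_cast at hk hsη' ⊢
          omega
        have hL : ∑ S ∈ (powersetCard (i.val + 1) univ).erase S₀, F (fun j => θ j + ind S j)
            = 0 := by
          refine Finset.sum_eq_zero fun S hS => ih _ ?_ ?_
          · intro j
            have h1 := hθ0 j
            have h2 : 0 ≤ ind S j := by unfold ind; split_ifs <;> norm_num
            show 0 ≤ θ j + ind S j
            omega
          · have hSne := Finset.ne_of_mem_erase hS
            have hcS := (Finset.mem_powersetCard.mp (Finset.mem_of_mem_erase hS)).2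
            have h1 := hgt_add_lt θ hθa S (by rw [hcS, ← hS₀]; exact hSne) 1 (by norm_num)
            rw [hcS, ← hDdef] at h1
            simp only [one_mul] at h1
            rw [hsη, hcS]
            push_cast at hk hsη' ⊢
            omega
        have hmem : S₀ ∈ powersetCard (i.val + 1) (univ : Finset (Fin (N + 1))) := by
          rw [Finset.mem_powersetCard]
          exact ⟨Finset.subset_univ _, hc₀⟩
        rw [hθz, zero_mul, ← Finset.add_sum_erase _ _ hmem, hL, add_zero, hback] at heq
        exact heq.symm
      · push Not at hgap
        have hval : ∀ j : Fin (N + 1), η j = rho N j + η (Fin.last N) := by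
          intro j
          induction j using Fin.reverseInduction with
          | last =>
            unfold rho
            simp
          | cast i hi =>
            have h1 := hgap i
            have h2 := (Fin.strictAnti_iff_succ_lt.mp hη) i
            unfold rho at hi ⊢
            simp only [Fin.val_succ, Fin.val_castSucc] at hi ⊢
            push_cast at hi
            omega
        by_cases hc : η (Fin.last N) = 0
        · have : η = rho N := by
            funext j
            rw [hval j, hc, add_zero]
          rw [this]
          exact h0
        · have hpos : 0 < η (Fin.last N) := lt_of_le_of_ne (hη0 _) (Ne.symm hc)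
          have heq := hb (fun j => η j + -1) (N + 1) (by omega) le_rfl
          have hp : powersetCard (N + 1) (univ : Finset (Fin (N + 1))) = {univ} := by
            have h1 := Finset.powersetCard_self (univ : Finset (Fin (N + 1)))
            rwa [Finset.card_univ, Fintype.card_fin] at h1
          rw [hp, Finset.sum_singleton] at heq
          have h1 : (fun j => η j + -1 + ind univ j) = η := by
            funext j
            unfold ind
            simp
          rw [h1] at heq
          rw [← heq, ih (fun j => η j + -1), zero_mul]
          · intro j
            have : η (Fin.last N) ≤ η j := hη.antitone (Fin.le_last j)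
            show 0 ≤ η j + -1
            omega
          · rw [hgt_shift, Finset.sum_add_distrib, Finset.sum_const, Finset.card_univ,
              Fintype.card_fin, nsmul_eq_mul]
            push_cast at hk ⊢
            omega
  intro x hx
  have h1 := hgt_nonneg x
  have h2 : 0 ≤ ∑ j, x j := Finset.sum_nonneg fun j _ => hx j
  exact main ((hgt x + ∑ j, x j).toNat + 1) x hx
    (by push_cast; rw [Int.toNat_of_nonneg (by omega)]; omega)

end Pool.Agent.X240.BM
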