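import Pool.Agent.X240.BM.Types

/-!
# The product with the class of a representation which is concentrated in one embedding
-/

set_option autoImplicit false

namespace Pool.Agent.X240.BM

open Finset

/-- Add the vector `v` at `σ`. -/
def add {J : Type} [DecidableEq J] {n : ℕ} (ξ : Wt J n) (σ : J) (v : Fin n → ℤ) : Wt J n :=
  Function.update ξ σ fun j => ξ σ j + v j

/-- The vector `v` at `σ` and `rho` at the other embeddings. -/
def conc {J : Type} [DecidableEq J] {N : ℕ} (σ : J) (v : Fin (N + 1) → ℤ) : Wt J (N + 1) :=
  Function.update (fun _ => rho N) σ v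

/-- The alternating sum of the values of `E` at the weights `ξ + w v`. -/
def altSum {J : Type} [DecidableEq J] {n : ℕ} {A : Type} [AddCommGroup A] (E : Wt J n → A)
    (ξ : Wt J n) (σ : J) (v : Fin n → ℤ) : A :=
  ∑ w : Equiv.Perm (Fin n), ((Equiv.Perm.sign w : ℤˣ) : ℤ) • E (add ξ σ (v ∘ w))

section

variable {J W : Type} [Fintype J] [DecidableEq J] [Fintype W] [Nonempty W] {N : ℕ} {nx : J → J}
  {m : J → ℤ} {σ₀ : J} {Q : ℤ} {R : Type} [CommRing R]

omit [Nonempty W] [Fintype W] in
theorem torsion_free (D : WeightRing J W N nx m σ₀ Q R) (x : R) (h : x = -x) : x = 0 := by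
  have h1 : D.serre.repr x = 0 := by
    have h2 : D.serre.repr x = -D.serre.repr x := by
      rw [← map_neg, ← h]
    ext V
    have h3 := DFunLike.congr_fun h2 V
    rw [Finsupp.neg_apply] at h3
    rw [Finsupp.zero_apply]
    omega
  exact (LinearEquiv.map_eq_zero_iff _).mp h1

omit [Fintype J] [Fintype W] [Nonempty W] in
theorem bump_conc (σ : J) (v : Fin (N + 1) → ℤ) (S : Finset (Fin (N + 1))) :
    bump (conc σ v) σ 1 S = conc σ fun j => v j + ind S j := by
  funext τ j
  unfold bump conc ind
  by_cases h : τ = σ
  · subst h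
    simp
  · simp [h]

omit [Fintype J] [Fintype W] [Nonempty W] in
theorem bump_add (ξ : Wt J (N + 1)) (σ : J) (v : Fin (N + 1) → ℤ) (S : Finset (Fin (N + 1))) :
    bump (add ξ σ v) σ 1 S = add ξ σ fun j => v j + ind S j := by
  funext τ j
  unfold bump add ind
  by_cases h : τ = σ
  · subst h
    simp [add_assoc]
  · simp [h]

theorem ind_comp {n : ℕ} (w : Equiv.Perm (Fin n)) (S : Finset (Fin n)) (j : Fin n) :
    ind (S.map w.toEmbedding) (w j) = ind S j := by
  unfold ind
  have : w j ∈ S.map w.toEmbedding ↔ j ∈ S := by
    rw [Finset.mem_map]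
    constructor
    · rintro ⟨k, hk, hkj⟩
      have : k = j := w.injective hkj
      rwa [← this]
    · intro h
      exact ⟨j, h, rfl⟩
  by_cases h : j ∈ S
  · rw [if_pos h, if_pos (this.mpr h)]
  · rw [if_neg h, if_neg (fun h' => h (this.mp h'))]

omit [Fintype W] [Nonempty W] in
theorem altSum_alt (D : WeightRing J W N nx m σ₀ Q R) (ξ : Wt J (N + 1)) (σ : J) :
    Alt1 fun v => altSum D.cls ξ σ v := by
  classical
  have hperm : ∀ (v : Fin (N + 1) → ℤ) (u : Equiv.Perm (Fin (N + 1))),
      altSum D.cls ξ σ (v ∘ u) = ((Equiv.Perm.sign u : ℤˣ) : ℤ) • altSum D.cls ξ σ v := by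
    intro v u
    unfold altSum
    rw [← Equiv.sum_comp (Equiv.mulLeft u) (fun w => ((Equiv.Perm.sign w : ℤˣ) : ℤ) •
      D.cls (add ξ σ (v ∘ w))), Finset.smul_sum]
    refine Finset.sum_congr rfl fun w _ => ?_
    rw [Equiv.coe_mulLeft, smul_smul, Equiv.Perm.sign_mul, Units.val_mul, ← mul_assoc]
    have h1 : ((Equiv.Perm.sign u : ℤˣ) : ℤ) * ((Equiv.Perm.sign u : ℤˣ) : ℤ) = 1 := by
      rw [← Units.val_mul, Int.units_mul_self, Units.val_one]
    rw [h1, one_mul]
    rfl
  refine ⟨hperm, fun v hv => ?_⟩
  rw [Function.Injective] at hv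
  push Not at hv
  obtain ⟨j, k, hjk, hne⟩ := hv
  have hfix : v ∘ Equiv.swap j k = v := by
    funext l
    show v (Equiv.swap j k l) = v l
    by_cases h1 : l = j
    · rw [h1, Equiv.swap_apply_left, hjk]
    · by_cases h2 : l = k
      · rw [h2, Equiv.swap_apply_right, hjk]
      · rw [Equiv.swap_apply_of_ne_of_ne h1 h2]
  have h1 := hperm v (Equiv.swap j k)
  rw [hfix, Equiv.Perm.sign_swap hne] at h1
  refine torsion_free D _ (h1.trans ?_)
  simp

omit [Fintype W] [Nonempty W] in
theorem conc_alt (D : WeightRing J W N nx m σ₀ Q R) (X : R) (σ : J) :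
    Alt1 fun v => X * D.cls (conc σ v) := by
  constructor
  · intro v w
    have h := D.alt.perm (conc σ v) σ w
    have h1 : Function.update (conc σ v) σ (conc σ v σ ∘ w) = conc σ (v ∘ w) := by
      unfold conc
      rw [Function.update_self, Function.update_idem]
    rw [h1] at h
    rw [h, mul_smul_comm]
  · intro v hv
    rw [D.alt.rep (conc σ v) σ (by unfold conc; rwa [Function.update_self]), mul_zero]

omit [Fintype W] [Nonempty W] in
/-- Weyl's character formula with the denominators cleared: the product of the alternating sum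
`∑ sgn w [ξ + w rho]` with the class of a weight which is concentrated at `σ`. -/
theorem mul_conc (D : WeightRing J W N nx m σ₀ Q R) (hone : D.cls (fun _ => rho N) = 1)
    (ξ : Wt J (N + 1)) (σ : J) (v : Fin (N + 1) → ℤ) (hv : ∀ j, 0 ≤ v j) :
    altSum D.cls ξ σ (rho N) * D.cls (conc σ v) = altSum D.cls ξ σ v := by
  classical
  have h1 := conc_alt D (altSum D.cls ξ σ (rho N)) σ
  have h2 := altSum_alt D ξ σ
  have h := zero_of_rho (fun i => D.ext 1 σ i)
    (fun v => altSum D.cls ξ σ (rho N) * D.cls (conc σ v) - altSum D.cls ξ σ v) ?_ ?_ ?_ v hv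
  · exact sub_eq_zero.mp h
  · constructor
    · intro x w
      have e1 := h1.perm x w
      have e2 := h2.perm x w
      show _ * D.cls (conc σ (x ∘ w)) - altSum D.cls ξ σ (x ∘ w) = _
      rw [e1, e2, smul_sub]
    · intro x hx
      have e1 := h1.rep x hx
      have e2 := h2.rep x hx
      show _ * D.cls (conc σ x) - altSum D.cls ξ σ x = 0
      rw [e1, e2, sub_zero]
  · intro x i hi hn
    rw [sub_mul, mul_assoc, D.brauer (conc σ x) σ i 1 (Or.inl rfl) hi hn, Finset.mul_sum]
    simp only [bump_conc]
    rw [Finset.sum_sub_distrib]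
    congr 1
    unfold altSum
    rw [Finset.sum_mul, Finset.sum_comm]
    refine Finset.sum_congr rfl fun w _ => ?_
    rw [smul_mul_assoc, D.brauer _ σ i 1 (Or.inl rfl) hi hn, Finset.smul_sum]
    simp only [bump_add]
    refine Finset.sum_bij (fun S _ => S.map w.toEmbedding) (fun S hS => map_mem w i hS)
      (fun S _ S' _ h => Finset.map_injective _ h) (fun S hS => ?_) (fun S _ => ?_)
    · refine ⟨S.map w.symm.toEmbedding, map_mem w.symm i hS, ?_⟩
      ext j
      simp
    · congr 2
      unfold add
      congr 1
      funext j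
      show ξ σ j + ((x ∘ w) j + ind S j) = ξ σ j + (x (w j) + ind (S.map w.toEmbedding) (w j))
      rw [ind_comp]
      rfl
  · have : conc σ (rho N) = fun _ : J => rho N := by
      unfold conc
      exact Function.update_eq_self σ _
    rw [this, hone, mul_one, sub_self]

end

/-! ### The alternating sum with `rho` determines an alternating function -/

theorem rho_diff_sign {N : ℕ} (w : Equiv.Perm (Fin (N + 1))) (j k : Fin (N + 1)) :
    rho N (w j) - rho N (w k) = ((w k).val : ℤ) - ((w j).val : ℤ) := by
  unfold rho
  ring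

theorem hgt_rho_add {N : ℕ} (x : Fin (N + 1) → ℤ) (hx : Antitone x) :
    hgt (fun j => x j + rho N j) = hgt x + hgt (rho N) := by
  unfold hgt
  rw [← Finset.sum_add_distrib]
  refine Finset.sum_congr rfl fun j _ => ?_
  rw [← Finset.sum_add_distrib]
  refine Finset.sum_congr rfl fun k _ => ?_
  have e : x j + rho N j - (x k + rho N k) = (x j - x k) + (rho N j - rho N k) := by ring
  rw [e]
  rcases le_total j k with h | h
  · have h1 := hx h
    have h2 := (rho_strictAnti N).antitone h
    rw [abs_of_nonneg (by omega), abs_of_nonneg (by omega), abs_of_nonneg (by omega)]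
  · have h1 := hx h
    have h2 := (rho_strictAnti N).antitone h
    rw [abs_of_nonpos (by omega), abs_of_nonpos (by omega), abs_of_nonpos (by omega)]
    ring

theorem hgt_rho_lt {N : ℕ} (x : Fin (N + 1) → ℤ) (hx : Antitone x)
    (w : Equiv.Perm (Fin (N + 1))) (hw : x ∘ w ≠ x) :
    hgt (fun j => x j + rho N (w j)) < hgt x + hgt (rho N) := by
  have hle : ∀ j k : Fin (N + 1), |x j + rho N (w j) - (x k + rho N (w k))| ≤
      |x j - x k| + |rho N (w j) - rho N (w k)| := by
    intro j k
    have : x j + rho N (w j) - (x k + rho N (w k)) = (x j - x k) + (rho N (w j) - rho N (w k)) := by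
      ring
    rw [this]
    exact abs_add_le _ _
  have hex : ∃ j k : Fin (N + 1), |x j + rho N (w j) - (x k + rho N (w k))| <
      |x j - x k| + |rho N (w j) - rho N (w k)| := by
    by_contra hcon
    push Not at hcon
    apply hw
    have hs : ∀ j k : Fin (N + 1), x k < x j → (w j).val ≤ (w k).val := by
      intro j k hjk
      by_contra hlt
      push Not at hlt
      have h1 := hcon j k
      have h2 := rho_diff_sign w j k
      have e : x j + rho N (w j) - (x k + rho N (w k)) =
        (x j - x k) + (rho N (w j) - rho N (w k)) := by ring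
      rw [e, abs_of_pos (show 0 < x j - x k by omega),
        abs_of_neg (show rho N (w j) - rho N (w k) < 0 by omega)] at h1
      have h3 : |x j - x k + (rho N (w j) - rho N (w k))| <
          x j - x k + -(rho N (w j) - rho N (w k)) := by
        rw [abs_lt]
        constructor <;> omega
      omega
    have hanti : Antitone (x ∘ (w⁻¹ : Equiv.Perm (Fin (N + 1)))) := by
      intro a b hab
      by_contra hlt
      push Not at hlt
      have h1 := hs (w⁻¹ b) (w⁻¹ a) hlt
      have e1 : w (w⁻¹ b) = b := by simp
      have e2 : w (w⁻¹ a) = a := by simp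
      rw [e1, e2] at h1
      have h2 : a = b := le_antisymm hab h1
      rw [h2] at hlt
      exact lt_irrefl _ hlt
    have h1 : Monotone ((fun j => -x j) ∘ (w⁻¹ : Equiv.Perm (Fin (N + 1)))) := by
      intro a b hab
      have := hanti hab
      simp only [Function.comp] at this ⊢
      omega
    have h2 : Monotone ((fun j => -x j) ∘ (1 : Equiv.Perm (Fin (N + 1)))) := by
      intro a b hab
      have := hx hab
      simp only [Function.comp, Equiv.Perm.coe_one, id]
      omega
    have h3 := Tuple.unique_monotone h1 h2
    funext j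
    have h4 := congrFun h3 (w j)
    have e1 : w⁻¹ (w j) = j := by simp
    simp only [Function.comp, Equiv.Perm.coe_one, id] at h4
    rw [e1] at h4
    show x (w j) = x j
    omega
  obtain ⟨j₀, k₀, hjk⟩ := hex
  rw [← hgt_perm (rho N) w]
  unfold hgt
  rw [← Finset.sum_add_distrib]
  refine Finset.sum_lt_sum (fun j _ => ?_) ⟨j₀, Finset.mem_univ _, ?_⟩
  · rw [← Finset.sum_add_distrib]
    exact Finset.sum_le_sum fun k _ => hle j k
  · rw [← Finset.sum_add_distrib]
    exact Finset.sum_lt_sum (fun k _ => hle j₀ k) ⟨k₀, Finset.mem_univ _, hjk⟩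

theorem zero_of_altSum {J : Type} [DecidableEq J] {N : ℕ} {A : Type} [AddCommGroup A]
    (htf : ∀ (k : ℕ) (a : A), k ≠ 0 → k • a = 0 → a = 0) (H : Wt J (N + 1) → A) (hH : Alt H)
    (σ : J) (h : ∀ ξ, altSum H ξ σ (rho N) = 0) : ∀ ξ, H ξ = 0 := by
  classical
  have main : ∀ k : ℕ, ∀ ξ : Wt J (N + 1), hgt (ξ σ) < k → H ξ = 0 := by
    intro k
    induction k with
    | zero =>
      intro ξ hξ
      have := hgt_nonneg (ξ σ)
      simp at hξ
      omega
    | succ k ih =>
      intro ξ hξ
      by_cases hinj : Function.Injective (ξ σ)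
      swap
      · exact hH.rep ξ σ hinj
      apply zero_of_sign (dsort (ξ σ))
      rw [← hH.perm]
      have hη := strictAnti_dsort (ξ σ) hinj
      rw [← hgt_perm (ξ σ) (dsort (ξ σ))] at hξ
      generalize ξ σ ∘ dsort (ξ σ) = η at hη hξ
      set x : Fin (N + 1) → ℤ := fun j => η j - rho N j with hx
      have hxa : Antitone x := by
        rw [Fin.antitone_iff_succ_le]
        intro i
        have h1 := (Fin.strictAnti_iff_succ_lt.mp hη) i
        show η i.succ - rho N i.succ ≤ η i.castSucc - rho N i.castSucc
        unfold rho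
        simp only [Fin.val_succ, Fin.val_castSucc]
        push_cast
        omega
      have hback : (fun j => x j + rho N j) = η := by
        funext j
        rw [hx]
        show η j - rho N j + rho N j = η j
        ring
      have hhη : hgt η = hgt x + hgt (rho N) := by
        rw [← hgt_rho_add x hxa, hback]
      have h1 := h (Function.update ξ σ x)
      unfold altSum at h1
      have h2 : ∀ w : Equiv.Perm (Fin (N + 1)),
          ((Equiv.Perm.sign w : ℤˣ) : ℤ) • H (add (Function.update ξ σ x) σ (rho N ∘ w)) =
            if x ∘ w = x then H (Function.update ξ σ η) else 0 := by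
        intro w
        have e1 : add (Function.update ξ σ x) σ (rho N ∘ w) =
            Function.update ξ σ fun j => x j + rho N (w j) := by
          unfold add
          rw [Function.update_self, Function.update_idem]
          rfl
        rw [e1]
        split_ifs with hw
        · have e2 : (fun j => x j + rho N (w j)) = η ∘ w := by
            funext j
            have h3 := congrFun hw j
            have h4 := congrFun hback (w j)
            show x j + rho N (w j) = η (w j)
            rw [← h4]
            show x j + rho N (w j) = x (w j) + rho N (w j)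
            rw [← h3]
            rfl
          have h5 := hH.perm (Function.update ξ σ η) σ w
          rw [Function.update_self, Function.update_idem] at h5
          rw [e2, h5, smul_smul, ← Units.val_mul, Int.units_mul_self, Units.val_one, one_smul]
        · have h3 := hgt_rho_lt x hxa w hw
          rw [ih, smul_zero]
          rw [Function.update_self]
          push_cast at hξ
          omega
      simp only [h2] at h1
      rw [← Finset.sum_filter, Finset.sum_const] at h1
      refine htf _ _ ?_ h1
      apply Finset.card_ne_zero_of_mem (a := 1)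
      rw [Finset.mem_filter]
      exact ⟨Finset.mem_univ _, rfl⟩
  intro ξ
  have h1 := hgt_nonneg (ξ σ)
  exact main ((hgt (ξ σ)).toNat + 1) ξ (by push_cast; rw [Int.toNat_of_nonneg h1]; omega)

end Pool.Agent.X240.BM
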