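import Pool.Agent.X240.BM.Types2

/-!
# The conjecture as a system of relations, one family for each type
-/

set_option autoImplicit false

namespace Pool.Agent.X240.BM

open Finset

section

variable {J W : Type} [Fintype J] [DecidableEq J] [Fintype W] [Nonempty W] {N : ℕ} {nx : J → J}
  {m : J → ℤ} {σ₀ : J} {Q : ℤ} {R : Type} [CommRing R] {A : Type} [AddCommGroup A]

/-- The class of a formal combination of vectors, put at the embedding `σ₀`. -/
noncomputable def combClass (D : WeightRing J W N nx m σ₀ Q R) (a : (Fin (N + 1) → ℤ) →₀ ℤ) : R :=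
  a.sum fun v k => k • D.cls (conc σ₀ v)

/-- The relations between an alternating function `E'` (for a type) and an alternating function `E`
(for the trivial type), which belong to the formal combination `a` of vectors. -/
def TypeRel (σ₀ : J) (a : (Fin (N + 1) → ℤ) →₀ ℤ) (E E' : Wt J (N + 1) → A) : Prop :=
  ∀ ξ, altSum E' ξ σ₀ (rho N) = a.sum fun v k => k • altSum E ξ σ₀ v

omit [Fintype W] [Nonempty W] in
theorem altSum_map (D : WeightRing J W N nx m σ₀ Q R) (φ : R →ₗ[ℤ] A) (x : R) (ξ : Wt J (N + 1))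
    (σ : J) (v : Fin (N + 1) → ℤ) :
    altSum (fun ξ => φ (D.cls ξ * x)) ξ σ v = φ (altSum D.cls ξ σ v * x) := by
  unfold altSum
  rw [Finset.sum_mul, map_sum]
  refine Finset.sum_congr rfl fun w _ => ?_
  rw [smul_mul_assoc, map_smul]

omit [Fintype W] [Nonempty W] in
theorem rel_map (D : WeightRing J W N nx m σ₀ Q R) (hone : D.cls (fun _ => rho N) = 1)
    (φ : R →ₗ[ℤ] A) (a : (Fin (N + 1) → ℤ) →₀ ℤ) (ha : ∀ v ∈ a.support, ∀ j, 0 ≤ v j) :
    TypeRel σ₀ a (fun ξ => φ (D.cls ξ)) fun ξ => φ (D.cls ξ * combClass D a) := by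
  intro ξ
  rw [altSum_map]
  have h1 : ∀ v, altSum (fun ξ => φ (D.cls ξ)) ξ σ₀ v = φ (altSum D.cls ξ σ₀ v) := by
    intro v
    have := altSum_map D φ 1 ξ σ₀ v
    simpa only [mul_one] using this
  simp only [h1]
  unfold combClass Finsupp.sum
  rw [Finset.mul_sum, map_sum]
  refine Finset.sum_congr rfl fun v hv => ?_
  rw [mul_smul_comm, map_smul, mul_conc D hone ξ σ₀ v (ha v hv)]

theorem map_of_cycles {T : Type} (D : WeightRing J W N nx m σ₀ Q R) (θ : T → R)
    (z : T → Wt J (N + 1) → A) (c : W → A) (hc : HasCycles D θ z c) :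
    ∃ φ : R →ₗ[ℤ] A, ∀ τ, altExt (z τ) = fun ξ => φ (D.cls ξ * θ τ) := by
  let φ : R →ₗ[ℤ] A := D.serre.constr ℤ c
  have hφ : ∀ V, φ (D.serre V) = c V := fun V => D.serre.constr_basis ℤ c V
  refine ⟨φ, fun τ => ?_⟩
  refine alt_ext _ _ (altExt_alt _) (alt_map D φ _) fun ξ hξ => ?_
  rw [altExt_strict _ _ hξ, hc τ ξ hξ, map_eq_sum D φ]
  simp only [hφ]

theorem cycles_of_map {T : Type} (D : WeightRing J W N nx m σ₀ Q R) (θ : T → R)
    (z : T → Wt J (N + 1) → A) (φ : R →ₗ[ℤ] A)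
    (h : ∀ τ, altExt (z τ) = fun ξ => φ (D.cls ξ * θ τ)) :
    HasCycles D θ z fun V => φ (D.serre V) := by
  intro τ ξ hξ
  rw [← map_eq_sum D φ, ← altExt_strict (z τ) ξ hξ, h τ]

theorem cycles_rel_iff {T : Type} (hS : Shape nx m σ₀ Q) (D : WeightRing J W N nx m σ₀ Q R)
    (hone : D.cls (fun _ => rho N) = 1) (θ : T → R) (t₀ : T) (ht : θ t₀ = 1)
    (a : T → (Fin (N + 1) → ℤ) →₀ ℤ) (ha : ∀ τ, ∀ v ∈ (a τ).support, ∀ j, 0 ≤ v j)
    (hθ : ∀ τ, τ ≠ t₀ → θ τ = combClass D (a τ)) (z : T → Wt J (N + 1) → A)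
    (htf : ∀ (k : ℕ) (x : A), k ≠ 0 → k • x = 0 → x = 0) :
    (∃ c, HasCycles D θ z c) ↔ HodgeEq nx m (z t₀) ∧
      ∀ τ, τ ≠ t₀ → TypeRel σ₀ (a τ) (altExt (z t₀)) (altExt (z τ)) := by
  rw [hodgeEq_iff]
  constructor
  · rintro ⟨c, hc⟩
    obtain ⟨φ, hφ⟩ := map_of_cycles D θ z c hc
    have h0 : altExt (z t₀) = fun ξ => φ (D.cls ξ) := by
      rw [hφ t₀, ht]
      simp only [mul_one]
    refine ⟨?_, fun τ hτ => ?_⟩
    · rw [hφ t₀]
      exact diff_map D φ _
    · rw [h0, hφ τ, hθ τ hτ]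
      exact rel_map D hone φ (a τ) (ha τ)
  · rintro ⟨h1, h2⟩
    obtain ⟨φ, hφ⟩ := exists_map hS D (altExt (z t₀)) (altExt_alt _) h1
    refine ⟨_, cycles_of_map D θ z φ fun τ => ?_⟩
    by_cases hτ : τ = t₀
    · subst hτ
      funext ξ
      rw [hφ, ht, mul_one]
    · have h3 := h2 τ hτ
      have h0 : altExt (z t₀) = fun ξ => φ (D.cls ξ) := funext hφ
      rw [h0] at h3
      have h4 := rel_map D hone φ (a τ) (ha τ)
      rw [← hθ τ hτ] at h4
      have h5 := zero_of_altSum htf (fun ξ => altExt (z τ) ξ - φ (D.cls ξ * θ τ))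
        (sub_alt (altExt_alt _) (alt_map D φ _)) σ₀ (fun ξ => by
          have e1 := h3 ξ
          have e2 := h4 ξ
          have e3 : altSum (fun ξ => altExt (z τ) ξ - φ (D.cls ξ * θ τ)) ξ σ₀ (rho N) =
              altSum (altExt (z τ)) ξ σ₀ (rho N) -
                altSum (fun ξ => φ (D.cls ξ * θ τ)) ξ σ₀ (rho N) := by
            unfold altSum
            rw [← Finset.sum_sub_distrib]
            refine Finset.sum_congr rfl fun w _ => ?_
            rw [smul_sub]
          rw [e3, e1, e2, sub_self])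
      funext ξ
      exact sub_eq_zero.mp (h5 ξ)

theorem mult_rel_iff {T : Type} (hS : Shape nx m σ₀ Q) (D : WeightRing J W N nx m σ₀ Q R)
    (hone : D.cls (fun _ => rho N) = 1) (θ : T → R) (t₀ : T) (ht : θ t₀ = 1)
    (a : T → (Fin (N + 1) → ℤ) →₀ ℤ) (ha : ∀ τ, ∀ v ∈ (a τ).support, ∀ j, 0 ≤ v j)
    (hθ : ∀ τ, τ ≠ t₀ → θ τ = combClass D (a τ)) (e : T → Wt J (N + 1) → ℕ) :
    (∃ μ, HasMultiplicities D θ e μ) ↔ HodgeEq nx m (fun ξ => (e t₀ ξ : ℤ)) ∧
      (∀ τ, τ ≠ t₀ → TypeRel σ₀ (a τ) (altExt fun ξ => (e t₀ ξ : ℤ)) (altExt fun ξ => (e τ ξ : ℤ))) ∧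
      Positive D (e t₀) := by
  have htf : ∀ (k : ℕ) (x : ℤ), k ≠ 0 → k • x = 0 → x = 0 := by
    intro k x hk h
    rw [nsmul_eq_mul, mul_eq_zero] at h
    rcases h with h | h
    · exact absurd (by exact_mod_cast h) hk
    · exact h
  have key := cycles_rel_iff hS D hone θ t₀ ht a ha hθ (fun τ ξ => (e τ ξ : ℤ)) htf
  have key2 := cycles_iff hS D θ t₀ ht (fun τ ξ => (e τ ξ : ℤ))
  rw [mult_iff hS D θ t₀ ht e]
  constructor
  · rintro ⟨h1, h2, h3⟩
    obtain ⟨k1, k2⟩ := key.mp (key2.mpr ⟨h1, h2⟩)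
    exact ⟨k1, k2, h3⟩
  · rintro ⟨h1, h2, h3⟩
    obtain ⟨k1, k2⟩ := key2.mp (key.mpr ⟨h1, h2⟩)
    exact ⟨k1, k2, h3⟩

end

/-! ### Tame types which are sums of characters of the residue field -/

/-- The pairs `i < j` of different characters: the characters are the powers `χ i` of a generator of
the group of characters of `k ^ *`, which has order `q - 1`. -/
def cross {N : ℕ} (q : ℕ) (χ : Fin (N + 1) → ℕ) : Finset (Fin (N + 1) × Fin (N + 1)) :=
  univ.filter fun x => x.1 < x.2 ∧ ¬ χ x.1 ≡ χ x.2 [MOD q - 1]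

/-- The vector `χ + ∑_{i < j, (i, j) ∉ S} ε_i + q ∑_{i < j, (i, j) ∈ S} ε_j`. -/
def psVec {N : ℕ} (q : ℕ) (χ : Fin (N + 1) → ℕ) (S : Finset (Fin (N + 1) × Fin (N + 1))) :
    Fin (N + 1) → ℤ :=
  fun l => (χ l : ℤ) + ∑ x : Fin (N + 1) × Fin (N + 1), if x.1 < x.2 then
    (if x ∈ S then (if l = x.2 then (q : ℤ) else 0) else (if l = x.1 then 1 else 0)) else 0

/-- The combination `∑_S (-1) ^ |S| psVec S`, `S` a set of pairs `i < j` of different characters. -/
noncomputable def psComb {N : ℕ} (q : ℕ) (χ : Fin (N + 1) → ℕ) : (Fin (N + 1) → ℤ) →₀ ℤ :=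
  ∑ S ∈ (cross q χ).powerset, Finsupp.single (psVec q χ S) ((-1) ^ S.card)

theorem psVec_nonneg {N : ℕ} (q : ℕ) (χ : Fin (N + 1) → ℕ)
    (S : Finset (Fin (N + 1) × Fin (N + 1))) (l : Fin (N + 1)) : 0 ≤ psVec q χ S l := by
  unfold psVec
  refine add_nonneg (Int.natCast_nonneg _) (Finset.sum_nonneg fun x _ => ?_)
  split_ifs <;> positivity

theorem psComb_support {N : ℕ} (q : ℕ) (χ : Fin (N + 1) → ℕ) (v : Fin (N + 1) → ℤ)
    (hv : v ∈ (psComb q χ).support) (j : Fin (N + 1)) : 0 ≤ v j := by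
  classical
  unfold psComb at hv
  rw [Finsupp.mem_support_iff, Finsupp.finset_sum_apply] at hv
  obtain ⟨S, -, hS⟩ := Finset.exists_ne_zero_of_sum_ne_zero hv
  rw [Finsupp.single_apply] at hS
  split_ifs at hS with h
  · rw [← h]
    exact psVec_nonneg q χ S j
  · exact absurd rfl hS

theorem psComb_sum {N : ℕ} {B : Type} [AddCommGroup B] (q : ℕ) (χ : Fin (N + 1) → ℕ)
    (g : (Fin (N + 1) → ℤ) → B) :
    ((psComb q χ).sum fun v k => k • g v) =
      ∑ S ∈ (cross q χ).powerset, ((-1 : ℤ) ^ S.card) • g (psVec q χ S) := by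
  classical
  unfold psComb
  rw [← Finsupp.sum_finset_sum_index (fun v => zero_smul ℤ (g v)) fun v k l => add_smul k l (g v)]
  refine Finset.sum_congr rfl fun S _ => ?_
  exact Finsupp.sum_single_index (zero_smul ℤ _)

section

variable {J W : Type} [Fintype J] [DecidableEq J] [Fintype W] [Nonempty W] {N : ℕ} {nx : J → J}
  {m : J → ℤ} {σ₀ : J} {Q : ℤ} {R : Type} [CommRing R] {A : Type} [AddCommGroup A]

/-- The class of the parabolic induction of the characters `χ i`. -/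
noncomputable def psClass (D : WeightRing J W N nx m σ₀ Q R) (q : ℕ) (χ : Fin (N + 1) → ℕ) : R :=
  ∑ S ∈ (cross q χ).powerset, ((-1 : ℤ) ^ S.card) • D.cls (conc σ₀ (psVec q χ S))

/-- The relations for the tame type `⊕ χ i`. -/
def TameRel (σ₀ : J) (q : ℕ) (χ : Fin (N + 1) → ℕ) (E E' : Wt J (N + 1) → A) : Prop :=
  ∀ ξ, altSum E' ξ σ₀ (rho N) =
    ∑ S ∈ (cross q χ).powerset, ((-1 : ℤ) ^ S.card) • altSum E ξ σ₀ (psVec q χ S)

omit [Nonempty W] [Fintype W] in
theorem psClass_eq (D : WeightRing J W N nx m σ₀ Q R) (q : ℕ) (χ : Fin (N + 1) → ℕ) :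
    psClass D q χ = combClass D (psComb q χ) := by
  unfold psClass combClass
  rw [psComb_sum]

omit [Fintype J] in
theorem tameRel_iff (q : ℕ) (χ : Fin (N + 1) → ℕ) (E E' : Wt J (N + 1) → A) :
    TameRel σ₀ q χ E E' ↔ TypeRel σ₀ (psComb q χ) E E' := by
  unfold TameRel TypeRel
  simp only [psComb_sum]

/-- The crystalline cycles and the cycles for tame types. -/
theorem tame_iff {P : Type} (hS : Shape nx m σ₀ Q) (D : WeightRing J W N nx m σ₀ Q R)
    (hone : D.cls (fun _ => rho N) = 1) (q : ℕ) (χ : P → Fin (N + 1) → ℕ)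
    (z₀ : Wt J (N + 1) → A) (z : P → Wt J (N + 1) → A)
    (htf : ∀ (k : ℕ) (x : A), k ≠ 0 → k • x = 0 → x = 0) :
    (∃ c : W → A, HasCrystallineCycles D z₀ c ∧ HasCycles D (fun x => psClass D q (χ x)) z c) ↔
      HodgeEq nx m z₀ ∧ ∀ x, TameRel σ₀ q (χ x) (altExt z₀) (altExt (z x)) := by
  classical
  have key := cycles_rel_iff (T := Option P) hS D hone
    (fun t => t.elim 1 fun x => psClass D q (χ x)) none rfl
    (fun t => t.elim 0 fun x => psComb q (χ x)) (by
      intro τ v hv j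
      cases τ with
      | none => simp at hv
      | some x => exact psComb_support q (χ x) v hv j) (by
      intro τ hτ
      cases τ with
      | none => exact absurd rfl hτ
      | some x => exact psClass_eq D q (χ x)) (fun t => t.elim z₀ z) htf
  have h1 : ∀ c : W → A, (HasCrystallineCycles D z₀ c ∧
      HasCycles D (fun x => psClass D q (χ x)) z c) ↔
      HasCycles D (fun t : Option P => t.elim 1 fun x => psClass D q (χ x))
        (fun t => t.elim z₀ z) c := by
    intro c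
    rw [crys_iff_cycles]
    constructor
    · rintro ⟨h1, h2⟩ τ ξ hξ
      cases τ with
      | none => exact h1 () ξ hξ
      | some x => exact h2 x ξ hξ
    · intro h
      exact ⟨fun _ ξ hξ => h none ξ hξ, fun x ξ hξ => h (some x) ξ hξ⟩
  simp only [h1]
  rw [key]
  constructor
  · rintro ⟨h2, h3⟩
    exact ⟨h2, fun x => (tameRel_iff q (χ x) _ _).mpr (h3 (some x) (by simp))⟩
  · rintro ⟨h2, h3⟩
    refine ⟨h2, fun τ hτ => ?_⟩
    cases τ with
    | none => exact absurd rfl hτ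
    | some x => exact (tameRel_iff q (χ x) _ _).mp (h3 x)

theorem int_torsion_free (k : ℕ) (x : ℤ) (hk : k ≠ 0) (h : k • x = 0) : x = 0 := by
  rw [nsmul_eq_mul, mul_eq_zero] at h
  rcases h with h | h
  · exact absurd (by exact_mod_cast h) hk
  · exact h

/-- The crystalline multiplicities and the multiplicities for tame types. -/
theorem tame_mult_iff {P : Type} (hS : Shape nx m σ₀ Q) (D : WeightRing J W N nx m σ₀ Q R)
    (hone : D.cls (fun _ => rho N) = 1) (q : ℕ) (χ : P → Fin (N + 1) → ℕ)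
    (e₀ : Wt J (N + 1) → ℕ) (e : P → Wt J (N + 1) → ℕ) :
    (∃ μ : W → ℕ, HasCrystallineCycles D (fun ξ => (e₀ ξ : ℤ)) (fun V => (μ V : ℤ)) ∧
        HasMultiplicities D (fun x => psClass D q (χ x)) e μ) ↔
      HodgeEq nx m (fun ξ => (e₀ ξ : ℤ)) ∧
        (∀ x, TameRel σ₀ q (χ x) (altExt fun ξ => (e₀ ξ : ℤ)) (altExt fun ξ => (e x ξ : ℤ))) ∧
        Positive D e₀ := by
  classical
  have key := mult_rel_iff (T := Option P) hS D hone
    (fun t => t.elim 1 fun x => psClass D q (χ x)) none rfl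
    (fun t => t.elim 0 fun x => psComb q (χ x)) (by
      intro τ v hv j
      cases τ with
      | none => simp at hv
      | some x => exact psComb_support q (χ x) v hv j) (by
      intro τ hτ
      cases τ with
      | none => exact absurd rfl hτ
      | some x => exact psClass_eq D q (χ x)) (fun t => t.elim e₀ e)
  have h1 : ∀ μ : W → ℕ, (HasCrystallineCycles D (fun ξ => (e₀ ξ : ℤ)) (fun V => (μ V : ℤ)) ∧
      HasMultiplicities D (fun x => psClass D q (χ x)) e μ) ↔
      HasMultiplicities D (fun t : Option P => t.elim 1 fun x => psClass D q (χ x))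
        (fun t => t.elim e₀ e) μ := by
    intro μ
    constructor
    · rintro ⟨h1, h2⟩ τ ξ hξ
      cases τ with
      | none =>
        have := h1 ξ hξ
        simp only [smul_eq_mul] at this
        show (e₀ ξ : ℤ) = ∑ V, D.serre.repr (D.cls ξ * 1) V * (μ V : ℤ)
        rw [mul_one]
        exact this
      | some x => exact h2 x ξ hξ
    · intro h
      refine ⟨fun ξ hξ => ?_, fun x ξ hξ => h (some x) ξ hξ⟩
      have h2 : (e₀ ξ : ℤ) = ∑ V, D.serre.repr (D.cls ξ * 1) V * (μ V : ℤ) := h none ξ hξ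
      rw [mul_one] at h2
      simp only [smul_eq_mul]
      exact h2
  simp only [h1]
  rw [key]
  constructor
  · rintro ⟨h2, h3, h4⟩
    exact ⟨h2, fun x => (tameRel_iff q (χ x) _ _).mpr (h3 (some x) (by simp)), h4⟩
  · rintro ⟨h2, h3, h4⟩
    refine ⟨h2, fun τ hτ => ?_, h4⟩
    cases τ with
    | none => exact absurd rfl hτ
    | some x => exact (tameRel_iff q (χ x) _ _).mp (h3 x)

end

end Pool.Agent.X240.BM
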